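import Mathlib

/-!
# Extension of maps from the boundary of a cube to contractible spaces
-/

set_option autoImplicit false

namespace Pool.Agent.H87.Act

open Finset

variable {V : Type} [Fintype V] [DecidableEq V]

/-- the cube over the face `σ` -/
def cube (σ : Finset V) : Set (V → ℝ) :=
  {y | (∀ v, 0 ≤ y v ∧ y v ≤ 1) ∧ ∀ v, v ∉ σ → y v = 0}

/-- the boundary -/
def bdc (σ : Finset V) : Set (V → ℝ) := {y | y ∈ cube σ ∧ ∃ v ∈ σ, y v = 0 ∨ y v = 1}

omit [Fintype V] [DecidableEq V] in
theorem isClosed_cube (σ : Finset V) : IsClosed (cube σ) := by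
  have h : cube σ = (⋂ v, {y : V → ℝ | 0 ≤ y v}) ∩ (⋂ v, {y : V → ℝ | y v ≤ 1}) ∩
      ⋂ v, ⋂ (_ : v ∉ σ), {y : V → ℝ | y v = 0} := by
    ext y
    simp only [cube, Set.mem_ofPred_eq, Set.mem_inter_iff, Set.mem_iInter]
    constructor
    · rintro ⟨h1, h2⟩
      exact ⟨⟨fun v => (h1 v).1, fun v => (h1 v).2⟩, h2⟩
    · rintro ⟨⟨h1, h2⟩, h3⟩
      exact ⟨fun v => ⟨h1 v, h2 v⟩, h3⟩
  rw [h]
  refine ((isClosed_iInter fun v => ?_).inter (isClosed_iInter fun v => ?_)).inter
    (isClosed_iInter fun v => isClosed_iInter fun _ => ?_)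
  · exact isClosed_le continuous_const (continuous_apply v)
  · exact isClosed_le (continuous_apply v) continuous_const
  · exact isClosed_eq (continuous_apply v) continuous_const

/-- pasting over finitely many closed sets -/
theorem continuousOn_finset_union {α β ι : Type*} [TopologicalSpace α] [TopologicalSpace β] [DecidableEq ι]
    {f : α → β} (s : Finset ι) (A : ι → Set α) (hc : ∀ i ∈ s, IsClosed (A i))
    (hf : ∀ i ∈ s, ContinuousOn f (A i)) : ContinuousOn f (⋃ i ∈ s, A i) := by
  induction s using Finset.induction_on with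
  | empty => simp
  | insert a s ha ih =>
    rw [Finset.set_biUnion_insert]
    refine ContinuousOn.union_of_isClosed (hf a (mem_insert_self a s))
      (ih (fun i hi => hc i (mem_insert_of_mem hi)) fun i hi => hf i (mem_insert_of_mem hi))
      (hc a (mem_insert_self a s)) ?_
    exact Set.Finite.isClosed_biUnion (Finset.finite_toSet s) fun i hi => hc i (mem_insert_of_mem hi)

/-- the radial coordinate -/
noncomputable def rad (σ : Finset V) (y : V → ℝ) : ℝ := 2 * ‖fun v : σ => y v.1 - 1 / 2‖

/-- the radial projection -/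
noncomputable def prj (σ : Finset V) (y : V → ℝ) : V → ℝ := fun v =>
  if v ∈ σ then 1 / 2 + (y v - 1 / 2) / rad σ y else 0

omit [Fintype V] [DecidableEq V] in
theorem rad_cont (σ : Finset V) : Continuous (rad σ) := by
  unfold rad
  refine continuous_const.mul (Continuous.norm ?_)
  exact continuous_pi fun v => (continuous_apply v.1).sub continuous_const

omit [Fintype V] [DecidableEq V] in
theorem rad_nonneg (σ : Finset V) (y : V → ℝ) : 0 ≤ rad σ y := by
  unfold rad; positivity

omit [Fintype V] in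
theorem prj_cont (σ : Finset V) : ContinuousOn (prj σ) {y | rad σ y ≠ 0} := by
  refine continuousOn_pi.mpr fun v => ?_
  unfold prj
  by_cases h : v ∈ σ
  · simp only [h, if_true]
    refine ContinuousOn.add continuousOn_const (ContinuousOn.div ?_ (rad_cont σ).continuousOn fun y hy => hy)
    exact ((continuous_apply v).sub continuous_const).continuousOn
  · simp only [h, if_false]
    exact continuousOn_const

omit [Fintype V] [DecidableEq V] in
theorem abs_le_rad {σ : Finset V} (y : V → ℝ) {v : V} (hv : v ∈ σ) : |y v - 1 / 2| ≤ rad σ y / 2 := by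
  have h := norm_le_pi_norm (fun v : σ => y v.1 - 1 / 2) ⟨v, hv⟩
  rw [Real.norm_eq_abs] at h
  unfold rad
  linarith

omit [Fintype V] [DecidableEq V] in
theorem exists_rad {σ : Finset V} (hσ : σ.Nonempty) (y : V → ℝ) : ∃ v ∈ σ, |y v - 1 / 2| = rad σ y / 2 := by
  have : Nonempty σ := hσ.to_subtype
  obtain ⟨v, _, hv⟩ := Finset.exists_mem_eq_sup (univ : Finset σ) Finset.univ_nonempty
    (fun v : σ => ‖y v.1 - 1 / 2‖₊)
  refine ⟨v.1, v.2, ?_⟩
  have h1 : ‖fun v : σ => y v.1 - 1 / 2‖ = ‖y v.1 - 1 / 2‖ := by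
    rw [Pi.norm_def, hv]
    rfl
  rw [← Real.norm_eq_abs]
  unfold rad
  rw [h1]
  ring

omit [Fintype V] in
theorem prj_mem {σ : Finset V} (hσ : σ.Nonempty) {y : V → ℝ} (hr : rad σ y ≠ 0) : prj σ y ∈ bdc σ := by
  have hr0 : 0 < rad σ y := lt_of_le_of_ne (rad_nonneg σ y) (Ne.symm hr)
  have h1 : ∀ v ∈ σ, |(y v - 1 / 2) / rad σ y| ≤ 1 / 2 := by
    intro v hv
    rw [abs_div, abs_of_pos hr0, div_le_iff₀ hr0]
    have := abs_le_rad y hv
    linarith
  refine ⟨⟨fun v => ?_, fun v hv => ?_⟩, ?_⟩
  · unfold prj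
    split_ifs with h
    · have := abs_le.mp (h1 v h)
      constructor <;> linarith [this.1, this.2]
    · norm_num
  · unfold prj
    rw [if_neg hv]
  · obtain ⟨v, hv, h2⟩ := exists_rad hσ y
    refine ⟨v, hv, ?_⟩
    unfold prj
    rw [if_pos hv]
    have h3 : |(y v - 1 / 2) / rad σ y| = 1 / 2 := by
      rw [abs_div, abs_of_pos hr0, h2]
      field_simp
    rcases abs_eq (by norm_num : (0 : ℝ) ≤ 1 / 2) |>.mp h3 with h4 | h4
    · right; rw [h4]; norm_num
    · left; rw [h4]; norm_num

omit [Fintype V] in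
theorem rad_bdc {σ : Finset V} {y : V → ℝ} (hy : y ∈ bdc σ) : rad σ y = 1 ∧ prj σ y = y := by
  obtain ⟨⟨h1, h2⟩, v, hv, h3⟩ := hy
  have hne : σ.Nonempty := ⟨v, hv⟩
  have h4 : rad σ y = 1 := by
    obtain ⟨w, hw, h5⟩ := exists_rad hne y
    have h6 := abs_le_rad y hv
    have h7 : |y v - 1 / 2| = 1 / 2 := by
      rcases h3 with h | h <;> rw [h] <;> norm_num [abs_of_pos]
    have h8 : |y w - 1 / 2| ≤ 1 / 2 := by
      rw [abs_le]
      have := h1 w
      constructor <;> linarith [this.1, this.2]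
    linarith
  refine ⟨h4, ?_⟩
  funext w
  unfold prj
  split_ifs with h
  · rw [h4]; ring
  · exact (h2 w h).symm

omit [Fintype V] in
/-- **Extension** from the boundary of a cube to the cube. -/
theorem extend_cube {X : Type*} [TopologicalSpace X] [ContractibleSpace X] {σ : Finset V} (hσ : σ.Nonempty)
    {h : (V → ℝ) → X} (hc : ContinuousOn h (bdc σ)) :
    ∃ H : (V → ℝ) → X, ContinuousOn H (cube σ) ∧ ∀ y ∈ bdc σ, H y = h y := by
  obtain ⟨x0, ⟨K⟩⟩ := id_nullhomotopic X
  classical
  have hK0 : ∀ x, K (0, x) = x := fun x => K.apply_zero x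
  have hK1 : ∀ x, K (1, x) = x0 := fun x => K.apply_one x
  set t : (V → ℝ) → unitInterval := fun y => Set.projIcc (0 : ℝ) 1 zero_le_one (2 - 2 * rad σ y) with ht
  have htc : Continuous t := continuous_projIcc.comp (continuous_const.sub (continuous_const.mul (rad_cont σ)))
  set H : (V → ℝ) → X := fun y => if 1 / 2 ≤ rad σ y then K (t y, h (prj σ y)) else x0 with hH
  refine ⟨H, ?_, ?_⟩
  · have e : cube σ = (cube σ ∩ {y | 1 / 2 ≤ rad σ y}) ∪ (cube σ ∩ {y | rad σ y ≤ 1 / 2}) := by
      rw [← Set.inter_union_distrib_left]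
      ext y
      simp only [Set.mem_inter_iff, Set.mem_union, Set.mem_ofPred_eq]
      exact ⟨fun h => ⟨h, le_total _ _⟩, fun h => h.1⟩
    rw [e]
    refine ContinuousOn.union_of_isClosed ?_ ?_ ?_ ?_
    · have h1 : ContinuousOn (fun y => K (t y, h (prj σ y))) (cube σ ∩ {y | 1 / 2 ≤ rad σ y}) := by
        refine K.continuous.comp_continuousOn (htc.continuousOn.prodMk ?_)
        refine hc.comp ((prj_cont σ).mono ?_) ?_
        · rintro y ⟨_, hy⟩
          have : (1 / 2 : ℝ) ≤ rad σ y := hy
          show rad σ y ≠ 0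
          linarith
        · rintro y ⟨_, hy⟩
          have : (1 / 2 : ℝ) ≤ rad σ y := hy
          exact prj_mem hσ (by linarith)
      refine h1.congr ?_
      rintro y ⟨_, hy⟩
      exact if_pos hy
    · refine (continuousOn_const (c := x0)).congr ?_
      rintro y ⟨_, hy⟩
      have hy : rad σ y ≤ 1 / 2 := hy
      rw [hH]
      simp only
      split_ifs with h1
      · have h2 : rad σ y = 1 / 2 := le_antisymm hy h1
        have h3 : t y = 1 := by
          rw [ht]
          simp only
          rw [h2]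
          norm_num
        rw [h3, hK1]
      · rfl
    · exact (isClosed_cube σ).inter (isClosed_le continuous_const (rad_cont σ))
    · exact (isClosed_cube σ).inter (isClosed_le (rad_cont σ) continuous_const)
  · intro y hy
    obtain ⟨h1, h2⟩ := rad_bdc hy
    have h3 : t y = 0 := by
      rw [ht]
      simp only
      rw [h1]
      norm_num
    rw [hH]
    simp only
    rw [if_pos (by rw [h1]; norm_num), h2, h3, hK0]

end Pool.Agent.H87.Act
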