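import Pool.Agent.H87.Act.Mat

/-!
# Vanishing of the `ℓ²`-homology of the Salvetti complex
-/

set_option autoImplicit false
set_option linter.unusedSectionVars false

namespace Pool.Agent.H87.Act

open Finset Pool.Agent.W907.SG Pool.Agent.W326.DU Pool.Agent.Q121.HC Pool.Agent.W649.ZL TH57.Thr.Ati
open Pool.Agent.H87.Oct Pool.Agent.R779.CT
open Pool.Agent.H919R4.ZS (FinRes exists_rows)
open scoped Matrix

/-- a generalised inverse -/
theorem exists_ginv {a b : ℕ} (M : Matrix (Fin a) (Fin b) ℂ) :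
    ∃ S : Matrix (Fin b) (Fin a) ℂ, M * S * M = M := by
  obtain ⟨g, hg⟩ := (Matrix.toLin' M).rangeRestrict.exists_rightInverse_of_surjective
    (LinearMap.range_rangeRestrict _)
  obtain ⟨g', hg'⟩ := LinearMap.exists_extend g
  refine ⟨LinearMap.toMatrix' g', ?_⟩
  apply (Matrix.toLin' (R := ℂ)).injective
  rw [Matrix.toLin'_mul, Matrix.toLin'_mul, Matrix.toLin'_toMatrix']
  apply LinearMap.ext
  intro x
  have h1 : g' (Matrix.toLin' M x) = g ((Matrix.toLin' M).rangeRestrict x) := by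
    rw [← hg']
    rfl
  show Matrix.toLin' M (g' (Matrix.toLin' M x)) = Matrix.toLin' M x
  rw [h1]
  have h2 := LinearMap.congr_fun hg ((Matrix.toLin' M).rangeRestrict x)
  exact congrArg Subtype.val h2

variable {V : Type} [Fintype V] [LinearOrder V] {G : SimpleGraph V}

theorem exists_homot {i : ℕ} (h : ExF ℂ G (i + 1)) :
    ∃ (S : Matrix (Fin (nq G i)) (Fin (nq G (i + 1))) ℂ)
      (S' : Matrix (Fin (nq G (i + 1))) (Fin (nq G (i + 2))) ℂ),
      MC G i * S + S' * MC G (i + 1) = 1 := by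
  obtain ⟨S, hS⟩ := exists_ginv (MC G i)
  obtain ⟨S', hS'⟩ := exists_rows (MC G (i + 1)) (1 - MC G i * S) (fun k => exact_MC h _ (by
    rw [← Matrix.mul_apply_eq_vecMul, Matrix.sub_mul, Matrix.one_mul, hS, sub_self]
    rfl))
  exact ⟨S, S', by rw [hS', add_sub_cancel]⟩

variable (G) in
/-- the matrix over the group ring -/
noncomputable def up {a b : ℕ} (M : Matrix (Fin a) (Fin b) ℂ) :
    Matrix (Fin a) (Fin b) (MonoidAlgebra ℂ (RAAG G.Adj)) := M.map (algebraMap ℂ _)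

theorem up_mul {a b c : ℕ} (M : Matrix (Fin a) (Fin b) ℂ) (N : Matrix (Fin b) (Fin c) ℂ) :
    up G (M * N) = up G M * up G N := Matrix.map_mul

theorem ker_eq_range {i : ℕ} (h : ExF ℂ G (i + 1)) :
    LinearMap.ker (Rop (MM G i) : EE (RAAG G.Adj) (Fin (nq G (i + 1))) →ₗ[ℂ] EE (RAAG G.Adj) (Fin (nq G i))) =
      LinearMap.range (Rop (MM G (i + 1)) : EE (RAAG G.Adj) (Fin (nq G (i + 2))) →ₗ[ℂ]
        EE (RAAG G.Adj) (Fin (nq G (i + 1)))) := by
  obtain ⟨S, S', hS⟩ := exists_homot h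
  have h1 : MM G i * up G S + up G S' * MM G (i + 1) = 1 := by
    have h2 := congrArg (up G) hS
    have h3 : up G (MC G i * S + S' * MC G (i + 1)) =
        up G (MC G i * S) + up G (S' * MC G (i + 1)) := Matrix.map_add _ (map_add _) _ _
    rw [h3, up_mul, up_mul] at h2
    refine h2.trans ?_
    exact Matrix.map_one _ (map_zero _) (map_one _)
  have h4 : MM G (i + 1) * MM G i = 0 := by
    have h5 := congrArg (up G) (MC_mul (G := G) i)
    rw [up_mul] at h5
    refine Eq.trans h5 ?_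
    exact Matrix.map_zero _ (map_zero _)
  ext F
  constructor
  · intro hF
    have hF' : Rop (MM G i) F = 0 := hF
    have h5 : Rop (MM G i * up G S + up G S' * MM G (i + 1)) F = F := by
      rw [h1, Rop_one]
      rfl
    refine ⟨Rop (up G S') F, ?_⟩
    have h6 : ∀ (A B : Matrix (Fin (nq G (i + 1))) (Fin (nq G (i + 1))) (MonoidAlgebra ℂ (RAAG G.Adj))),
        Rop (A + B) F = Rop A F + Rop B F := by
      intro A B
      ext ⟨u, j⟩
      have : (Rop A F + Rop B F) (u, j) = Rop A F (u, j) + Rop B F (u, j) := rfl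
      rw [this, Rop_apply, Rop_apply, Rop_apply, ← sum_add_distrib]
      refine sum_congr rfl fun k _ => ?_
      rw [Matrix.add_apply, cv_add]
    rw [h6, Rop_mul, Rop_mul, ContinuousLinearMap.comp_apply, ContinuousLinearMap.comp_apply, hF', map_zero,
      zero_add] at h5
    exact h5
  · rintro ⟨F', rfl⟩
    show Rop (MM G i) (Rop (MM G (i + 1)) F') = 0
    rw [← ContinuousLinearMap.comp_apply, ← Rop_mul, h4]
    ext ⟨u, j⟩
    rw [Rop_apply]
    refine sum_eq_zero fun k _ => ?_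
    rw [Matrix.zero_apply, cv_zero]

theorem vd_ker_eq {i : ℕ} (h : ExF ℂ G (i + 1)) :
    vd (LinearMap.ker (TT (salv G) i : EE (RAAG G.Adj) (Fin ((salv G).n (i + 1))) →ₗ[ℂ]
      EE (RAAG G.Adj) (Fin ((salv G).n i)))) = rk (salv G) (i + 1) := by
  have h1 := rk_add (salv G) (i + 1)
  have h2 := ker_add_range (Rop (MM G (i + 1))) (Rop_eqv _)
  rw [← ker_eq_range h, Fintype.card_fin] at h2
  have h3 := kap_ds (G := G) i
  have h4 := kap_ds (G := G) (i + 1)
  unfold TH57.Thr.Ati.kap at h3 h4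
  have h5 : vd (LinearMap.ker (TT (salv G) i : EE (RAAG G.Adj) (Fin ((salv G).n (i + 1))) →ₗ[ℂ]
      EE (RAAG G.Adj) (Fin ((salv G).n i)))) =
      vd (LinearMap.ker (Rop (MM G i) : EE (RAAG G.Adj) (Fin (nq G (i + 1))) →ₗ[ℂ]
        EE (RAAG G.Adj) (Fin (nq G i)))) := h3
  have h6 : vd (LinearMap.ker (TT (salv G) (i + 1) : EE (RAAG G.Adj) (Fin ((salv G).n (i + 1 + 1))) →ₗ[ℂ]
      EE (RAAG G.Adj) (Fin ((salv G).n (i + 1))))) =
      vd (LinearMap.ker (Rop (MM G (i + 1)) : EE (RAAG G.Adj) (Fin (nq G (i + 2))) →ₗ[ℂ]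
        EE (RAAG G.Adj) (Fin (nq G (i + 1))))) := h4
  have h7 : ((salv G).n (i + 1 + 1) : ℝ) = (nq G (i + 2) : ℝ) := rfl
  rw [h5]
  rw [h6, h7] at h1
  have h8 : vd (LinearMap.ker (Rop (MM G (i + 1)) : EE (RAAG G.Adj) (Fin (nq G (i + 1 + 1))) →ₗ[ℂ]
        EE (RAAG G.Adj) (Fin (nq G (i + 1))))) + vd (LinearMap.ker (Rop (MM G i) :
        EE (RAAG G.Adj) (Fin (nq G (i + 1))) →ₗ[ℂ] EE (RAAG G.Adj) (Fin (nq G i)))) = (nq G (i + 1 + 1) : ℝ) := h2
  linarith

end Pool.Agent.H87.Act
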