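import Pool.Agent.H87.Act.Dim

/-!
# Independence of the resolution
-/

set_option autoImplicit false
set_option linter.unusedSectionVars false

namespace Pool.Agent.H87.Act

open Finset Pool.Agent.W649.ZL TH57.Thr.Ati Pool.Agent.R779.CT
open Pool.Agent.H919R4.ZS (FinRes exists_rows)
open Pool.Agent.TH38.ZT (exists_chain_map exists_homotopy)
open scoped Matrix

section gen

variable {A : Type} [Group A]

/-- the complex function of a real one -/
noncomputable def cplx {n : ℕ} (h : A → Fin n → ℝ) (hs : ∀ κ, Summable fun g => h g κ ^ 2) : EE A (Fin n) :=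
  ⟨fun p => (h p.1⁻¹ p.2 : ℂ), by
    refine (memlp_two_iff (fun p : A × Fin n => ((h p.1⁻¹ p.2 : ℝ) : ℂ))).2 ?_
    have h0 : (fun p : A × Fin n => ‖((h p.1⁻¹ p.2 : ℝ) : ℂ)‖ ^ 2) = fun p => h p.1⁻¹ p.2 ^ 2 := by
      funext p
      rw [Complex.norm_real, Real.norm_eq_abs, sq_abs]
    rw [h0, summable_prod_of_nonneg (fun p => sq_nonneg _)]
    refine ⟨fun x => (hasSum_fintype _).summable, ?_⟩
    simp only [tsum_fintype]
    exact summable_sum fun κ _ => (hs κ).comp_injective inv_injective⟩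

theorem cplx_apply {n : ℕ} (h : A → Fin n → ℝ) (hs : ∀ κ, Summable fun g => h g κ ^ 2) (g : A) (κ : Fin n) :
    cplx h hs (g, κ) = (h g⁻¹ κ : ℂ) := rfl

theorem cplx_ker (X : FinRes A) (i : ℕ) (h : A → Fin (X.n (i + 1)) → ℝ)
    (hs : ∀ κ, Summable fun g => h g κ ^ 2) (hc : IsCycle X (i + 1) h) : TT X i (cplx h hs) = 0 := by
  ext ⟨u, l⟩
  rw [TT, Rop_apply]
  have h1 : bdry X i h u⁻¹ l = 0 := hc u⁻¹ l
  have h2 : ∀ k, cv (toC (X.d i) k l) (fun v => cplx h hs (v, k)) u =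
      (((X.d i k l).coeff.sum fun s c => (c : ℝ) * h (u⁻¹ * s⁻¹) k : ℝ) : ℂ) := by
    intro k
    have h3 : cv (toC (X.d i) k l) (fun v => cplx h hs (v, k)) u =
      (X.d i k l).coeff.sum fun s c => ((c : ℤ) : ℂ) * (h (s * u)⁻¹ k : ℂ) := by
      rw [← sum_toC (X.d i) k l fun s => ((h (s * u)⁻¹ k : ℝ) : ℂ)]
      rfl
    rw [h3, Finsupp.sum, Finsupp.sum, Complex.ofReal_sum]
    refine sum_congr rfl fun s _ => ?_
    rw [mul_inv_rev]
    push_cast
    rfl
  rw [sum_congr rfl fun k _ => h2 k, ← Complex.ofReal_sum]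
  rw [bdry] at h1
  rw [h1]
  rfl

theorem cplx_adj (X : FinRes A) (i : ℕ) (h : A → Fin (X.n i) → ℝ)
    (hs : ∀ κ, Summable fun g => h g κ ^ 2) (hc : ∀ g κ, cobdry X i h g κ = 0) :
    ContinuousLinearMap.adjoint (TT X i) (cplx h hs) = 0 := by
  ext ⟨u, κ⟩
  rw [TT, adj_apply]
  have h1 := hc u⁻¹ κ
  have h2 : ∀ j, ∑ s ∈ (toC (X.d i) κ j).coeff.support,
      (starRingEnd ℂ) ((toC (X.d i) κ j).coeff s) * cplx h hs (s⁻¹ * u, j) =
      (((X.d i κ j).coeff.sum fun s c => (c : ℝ) * h (u⁻¹ * s) j : ℝ) : ℂ) := by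
    intro j
    have h3 : ∑ s ∈ (toC (X.d i) κ j).coeff.support,
      (starRingEnd ℂ) ((toC (X.d i) κ j).coeff s) * cplx h hs (s⁻¹ * u, j) =
      (X.d i κ j).coeff.sum fun s c => ((c : ℤ) : ℂ) * (h (s⁻¹ * u)⁻¹ j : ℂ) := by
      rw [← sum_toC (X.d i) κ j fun s => ((h (s⁻¹ * u)⁻¹ j : ℝ) : ℂ)]
      refine sum_congr rfl fun s _ => ?_
      rw [toC_coeff, map_intCast]
      rfl
    rw [h3, Finsupp.sum, Finsupp.sum, Complex.ofReal_sum]
    refine sum_congr rfl fun s _ => ?_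
    rw [mul_inv_rev, inv_inv]
    push_cast
    rfl
  rw [sum_congr rfl fun j _ => h2 j, ← Complex.ofReal_sum]
  rw [cobdry] at h1
  rw [h1]
  rfl

theorem cplx_inj {n : ℕ} {h : A → Fin n → ℝ} {hs : ∀ κ, Summable fun g => h g κ ^ 2} (h0 : cplx h hs = 0) :
    h = 0 := by
  funext g κ
  have h1 : cplx h hs (g⁻¹, κ) = 0 := by rw [h0]; rfl
  rw [cplx_apply, inv_inv] at h1
  rw [Pi.zero_apply, Pi.zero_apply]
  exact Complex.ofReal_eq_zero.mp h1

theorem orth_of_adj {n m : ℕ} (T : EE A (Fin n) →L[ℂ] EE A (Fin m)) {F : EE A (Fin m)}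
    (hF : ContinuousLinearMap.adjoint T F = 0) :
    F ∈ (LinearMap.range (T : EE A (Fin n) →ₗ[ℂ] EE A (Fin m))).topologicalClosureᗮ := by
  rw [Submodule.orthogonal_closure, Submodule.mem_orthogonal]
  rintro _ ⟨v, rfl⟩
  have h1 : inner ℂ v (ContinuousLinearMap.adjoint T F) = 0 := by rw [hF, inner_zero_right]
  rwa [ContinuousLinearMap.adjoint_inner_right] at h1

/-- the closure of the boundaries -/
noncomputable def RB (X : FinRes A) (i : ℕ) : Submodule ℂ (EE A (Fin (X.n i))) :=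
  (LinearMap.range (TT X i : EE A (Fin (X.n (i + 1))) →ₗ[ℂ] EE A (Fin (X.n i)))).topologicalClosure

/-- the cycles -/
noncomputable def ZB (X : FinRes A) (i : ℕ) : Submodule ℂ (EE A (Fin (X.n (i + 1)))) :=
  LinearMap.ker (TT X i : EE A (Fin (X.n (i + 1))) →ₗ[ℂ] EE A (Fin (X.n i)))

theorem RB_le (X : FinRes A) (i : ℕ) : RB X (i + 1) ≤ ZB X i := by
  apply Submodule.topologicalClosure_minimal _ _ (ContinuousLinearMap.isClosed_ker (TT X i))
  rintro _ ⟨f, rfl⟩
  exact DFunLike.congr_fun (T_comp X i) f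

theorem RB_closed (X : FinRes A) (i : ℕ) : IsClosed (RB X i : Set (EE A (Fin (X.n i)))) :=
  Submodule.isClosed_topologicalClosure _

theorem l2_of_inf (X : FinRes A) (i : ℕ) (h : ZB X i ⊓ (RB X (i + 1))ᗮ = ⊥) : L2Zero X (i + 1) := by
  intro f hs hc hd
  apply cplx_inj (hs := hs)
  have h1 : cplx f hs ∈ ZB X i ⊓ (RB X (i + 1))ᗮ :=
    ⟨cplx_ker X i f hs hc, orth_of_adj _ (cplx_adj X (i + 1) f hs hd)⟩
  rw [h, Submodule.mem_bot] at h1
  exact h1

theorem inf_of_l2 (X : FinRes A) (i : ℕ) (h : L2Zero X (i + 1)) : ZB X i ⊓ (RB X (i + 1))ᗮ = ⊥ := by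
  rw [Submodule.eq_bot_iff]
  rintro F ⟨h1, h2⟩
  exact harm_succ X i h (adj_of_orth _ h2) h1

theorem RB_eq (X : FinRes A) (i : ℕ) (h : L2Zero X (i + 1)) : RB X (i + 1) = ZB X i := by
  have : CompleteSpace (RB X (i + 1)) := (RB_closed X (i + 1)).completeSpace_coe
  have h3 := Submodule.sup_orthogonal_inf_of_hasOrthogonalProjection (RB_le X i)
  rw [inf_comm, inf_of_l2 X i h, sup_bot_eq] at h3
  exact h3

/-- dimensions -/
theorem l2_of_vd (X : FinRes A) (i : ℕ) (h : vd (ZB X i) = rk X (i + 1)) : L2Zero X (i + 1) := by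
  apply l2_of_inf
  have h1 := vd_sub (RB_closed X (i + 1)) (ContinuousLinearMap.isClosed_ker (TT X i)) (RB_le X i)
  have h2 : vd (RB X (i + 1)) = rk X (i + 1) := vd_closure _
  have hI : Pool.Agent.W649.ZL.Inv (RB X (i + 1)) := by
    apply Pool.Agent.W649.ZL.Inv.topologicalClosure
    rintro k _ ⟨f, rfl⟩
    exact ⟨tr k f, T_eqv X (i + 1) k f⟩
  have hK : Pool.Agent.W649.ZL.Inv (ZB X i) := inv_ker (TT X i) (T_eqv X i)
  refine eq_bot_of_vd_eq_zero _ (fun k f hf => ⟨hK k f hf.1, inv_orth hI k f hf.2⟩) ?_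
  have h3 : vd (ZB X i ⊓ (RB X (i + 1))ᗮ) = vd (ZB X i) - vd (RB X (i + 1)) := h1
  rw [h3, h2, h, sub_self]

theorem toC_mul {a b c : ℕ} (M : Matrix (Fin a) (Fin b) (MonoidAlgebra ℤ A))
    (N : Matrix (Fin b) (Fin c) (MonoidAlgebra ℤ A)) : toC (M * N) = toC M * toC N := Matrix.map_mul

theorem Rop_add_apply {a b : ℕ} (M N : Matrix (Fin a) (Fin b) (MonoidAlgebra ℂ A)) (F : EE A (Fin a)) :
    Rop (M + N) F = Rop M F + Rop N F := by
  ext ⟨u, j⟩
  have : (Rop M F + Rop N F) (u, j) = Rop M F (u, j) + Rop N F (u, j) := rfl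
  rw [this, Rop_apply, Rop_apply, Rop_apply, ← sum_add_distrib]
  refine sum_congr rfl fun k _ => ?_
  rw [Matrix.add_apply, cv_add]

/-- **The vanishing of the reduced `ℓ²`-homology does not depend on the resolution.** -/
theorem l2_indep (X Y : FinRes A) (i : ℕ) (h : L2Zero X (i + 1)) : L2Zero Y (i + 1) := by
  obtain ⟨K, hK0, hK⟩ := exists_chain_map Y X
  obtain ⟨F, hF0, hF⟩ := exists_chain_map X Y
  obtain ⟨H, _, hH⟩ := exists_homotopy Y (fun i => K i * F i) (by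
      intro k
      rw [Matrix.mul_apply_eq_vecMul, Pool.Agent.TH38.ZT.eps_vecMul, ← hK0 k]
      exact Finset.sum_congr rfl fun j _ => by rw [hF0 j]) (by
      intro i
      rw [← Matrix.mul_assoc, hK, Matrix.mul_assoc, hF, ← Matrix.mul_assoc])
  apply l2_of_inf
  rw [Submodule.eq_bot_iff]
  rintro f ⟨hf1, hf2⟩
  have hf1' : Rop (toC (Y.d i)) f = 0 := hf1
  -- the image is a cycle
  have h1 : Rop (toC (K (i + 1))) f ∈ ZB X i := by
    show Rop (toC (X.d i)) (Rop (toC (K (i + 1))) f) = 0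
    rw [← ContinuousLinearMap.comp_apply, ← Rop_mul, ← toC_mul, ← hK, toC_mul, Rop_mul,
      ContinuousLinearMap.comp_apply, hf1', map_zero]
  rw [← RB_eq X i h] at h1
  -- the image under the second map is in the closure of the boundaries
  have h2 : Rop (toC (F (i + 1))) (Rop (toC (K (i + 1))) f) ∈ RB Y (i + 1) := by
    have h3 : Rop (toC (F (i + 1))) (Rop (toC (K (i + 1))) f) ∈
        closure (Rop (toC (F (i + 1))) '' (LinearMap.range (TT X (i + 1) :
          EE A (Fin (X.n (i + 1 + 1))) →ₗ[ℂ] EE A (Fin (X.n (i + 1)))) : Set _)) := by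
      refine image_closure_subset_closure_image (Rop (toC (F (i + 1)))).continuous ⟨_, ?_, rfl⟩
      rw [← Submodule.topologicalClosure_coe]
      exact h1
    unfold RB
    rw [← SetLike.mem_coe, Submodule.topologicalClosure_coe]
    refine closure_mono ?_ h3
    rintro _ ⟨_, ⟨y, rfl⟩, rfl⟩
    refine ⟨Rop (toC (F (i + 2))) y, ?_⟩
    show Rop (toC (Y.d (i + 1))) (Rop (toC (F (i + 2))) y) = Rop (toC (F (i + 1))) (Rop (toC (X.d (i + 1))) y)
    rw [← ContinuousLinearMap.comp_apply, ← ContinuousLinearMap.comp_apply, ← Rop_mul, ← Rop_mul, ← toC_mul,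
      ← toC_mul, hF]
  have h4 : f ∈ RB Y (i + 1) := by
    have h5 : K (i + 1) * F (i + 1) = 1 + (Y.d i * H i + H (i + 1) * Y.d (i + 1)) := by
      have := hH i
      rw [← this]
      abel
    have h6 : Rop (toC (F (i + 1))) (Rop (toC (K (i + 1))) f) =
        f + Rop (toC (Y.d (i + 1))) (Rop (toC (H (i + 1))) f) := by
      rw [← ContinuousLinearMap.comp_apply, ← Rop_mul, ← toC_mul, h5]
      have h7 : toC (1 + (Y.d i * H i + H (i + 1) * Y.d (i + 1))) =
          1 + (toC (Y.d i) * toC (H i) + toC (H (i + 1)) * toC (Y.d (i + 1))) := by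
        rw [← toC_mul, ← toC_mul]
        have h8 : ∀ M N : Matrix (Fin (Y.n (i + 1))) (Fin (Y.n (i + 1))) (MonoidAlgebra ℤ A),
            toC (M + N) = toC M + toC N := fun M N => Matrix.map_add _ (map_add _) _ _
        rw [h8, h8]
        congr 1
        exact Matrix.map_one _ (map_zero _) (map_one _)
      rw [h7, Rop_add_apply, Rop_add_apply, Rop_one, Rop_mul, Rop_mul, ContinuousLinearMap.comp_apply,
        ContinuousLinearMap.comp_apply, hf1', map_zero, zero_add]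
      rfl
    have h9 : f = Rop (toC (F (i + 1))) (Rop (toC (K (i + 1))) f) -
        Rop (toC (Y.d (i + 1))) (Rop (toC (H (i + 1))) f) := by rw [h6]; abel
    rw [h9]
    refine Submodule.sub_mem _ h2 ?_
    exact Submodule.le_topologicalClosure _ ⟨_, rfl⟩
  have h10 := Submodule.inner_right_of_mem_orthogonal h4 hf2
  exact inner_self_eq_zero.mp h10

end gen

open Pool.Agent.W326.DU in
/-- **The `ℓ²`-homology of right-angled Artin groups.** -/
theorem l2_raag {V : Type} [Fintype V] [LinearOrder V] {G : SimpleGraph V} {i : ℕ}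
    (h : Pool.Agent.H87.Oct.Ex2 G (i + 1)) (Y : FinRes (RAAG G.Adj)) : L2Zero Y (i + 1) :=
  l2_indep (salv G) Y i (l2_of_vd (salv G) i (vd_ker_eq (exC_of_exR (exR_of_ex2 h))))

end Pool.Agent.H87.Act
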