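import Pool.Agent.H87.Act.Res

/-!
# Restriction of a finite free resolution: the resolution
-/

set_option autoImplicit false
set_option linter.unusedSectionVars false

namespace Pool.Agent.H87.Act

open Finset Pool.Agent.R779.CT
open Pool.Agent.H919R4.ZS (FinRes augm)
open scoped Matrix

namespace Trv

variable {H Γ : Type} [Group H] [Group Γ] (τ : Trv H Γ)

theorem blk_single' (g : Γ) (c : ℤ) (j k : Fin τ.m) :
    τ.blk (MonoidAlgebra.single g c) j k =
      if (τ.e.symm (τ.t k * g⁻¹)).2 = j then MonoidAlgebra.single (τ.e.symm (τ.t k * g⁻¹)).1⁻¹ c else 0 := by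
  classical
  ext h
  rw [blk_coeff, MonoidAlgebra.coeff_single, Finsupp.single_apply]
  have key : g = (τ.t j)⁻¹ * τ.φ h * τ.t k ↔ τ.e.symm (τ.t k * g⁻¹) = (h⁻¹, j) := by
    rw [Equiv.symm_apply_eq, e_apply, map_inv]
    constructor
    · rintro rfl
      group
    · intro h1
      have h2 : g⁻¹ = (τ.t k)⁻¹ * ((τ.φ h)⁻¹ * τ.t j) := by rw [← h1]; group
      rw [← inv_inv g, h2]
      group
  by_cases h1 : g = (τ.t j)⁻¹ * τ.φ h * τ.t k
  · rw [if_pos h1]
    have h2 := key.mp h1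
    rw [h2]
    simp
  · rw [if_neg h1]
    split_ifs with h2
    · rw [MonoidAlgebra.coeff_single, Finsupp.single_apply, if_neg]
      intro h3
      refine h1 (key.mpr (Prod.ext ?_ h2))
      rw [← h3, inv_inv]
    · simp

/-- sums over the blocks -/
theorem blk_sum' {N : Type} [AddCommGroup N] [Module ℝ N] (a : MonoidAlgebra ℤ Γ) (k : Fin τ.m)
    (f : H → Fin τ.m → N) :
    ∑ j, (τ.blk a j k).coeff.sum (fun s c => (c : ℝ) • f s⁻¹ j) =
      a.coeff.sum fun g c => (c : ℝ) • f (τ.e.symm (τ.t k * g⁻¹)).1 (τ.e.symm (τ.t k * g⁻¹)).2 := by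
  classical
  induction a using MonoidAlgebra.induction_linear with
  | zero => simp [blk_zero]
  | add a b ha hb =>
    have h1 : ∀ (x y : MonoidAlgebra ℤ Γ) (F : Γ → N), (x + y).coeff.sum (fun g c => (c : ℝ) • F g) =
        x.coeff.sum (fun g c => (c : ℝ) • F g) + y.coeff.sum fun g c => (c : ℝ) • F g := by
      intro x y F
      rw [MonoidAlgebra.coeff_add, Finsupp.sum_add_index' (by simp) (by intros; push_cast; rw [add_smul])]
    have h2 : ∀ (x y : MonoidAlgebra ℤ H) (F : H → N), (x + y).coeff.sum (fun g c => (c : ℝ) • F g) =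
        x.coeff.sum (fun g c => (c : ℝ) • F g) + y.coeff.sum fun g c => (c : ℝ) • F g := by
      intro x y F
      rw [MonoidAlgebra.coeff_add, Finsupp.sum_add_index' (by simp) (by intros; push_cast; rw [add_smul])]
    rw [h1, ← ha, ← hb, ← sum_add_distrib]
    refine sum_congr rfl fun j _ => ?_
    rw [blk_add, h2 _ _ fun s => f s⁻¹ j]
  | single g c =>
    rw [MonoidAlgebra.coeff_single, Finsupp.sum_single_index (by simp),
      sum_eq_single (τ.e.symm (τ.t k * g⁻¹)).2]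
    · rw [blk_single', if_pos rfl, MonoidAlgebra.coeff_single, Finsupp.sum_single_index (by simp), inv_inv]
    · intro j _ hj
      rw [blk_single', if_neg hj.symm]
      simp
    · intro h; exact absurd (mem_univ _) h

/-- the coset with number `j` -/
noncomputable def mp (j : Fin τ.m) (y : MonoidAlgebra ℤ H) : MonoidAlgebra ℤ Γ :=
  MonoidAlgebra.ofCoeff (Finsupp.mapDomain (fun h => τ.e (h, j)) y.coeff)

theorem mp_add (j : Fin τ.m) (x y : MonoidAlgebra ℤ H) : τ.mp j (x + y) = τ.mp j x + τ.mp j y := by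
  unfold mp
  rw [MonoidAlgebra.coeff_add, Finsupp.mapDomain_add]
  rfl

theorem mp_zero (j : Fin τ.m) : τ.mp j 0 = 0 := by
  unfold mp
  simp

theorem mp_single (j : Fin τ.m) (s : H) (c : ℤ) :
    τ.mp j (MonoidAlgebra.single s c) = MonoidAlgebra.single (τ.e (s, j)) c := by
  unfold mp
  rw [MonoidAlgebra.coeff_single, Finsupp.mapDomain_single]
  rfl

theorem inj_j (j : Fin τ.m) : Function.Injective (fun h : H => τ.e (h, j)) := by
  intro a b hab
  exact congrArg Prod.fst (τ.e.injective hab)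

theorem mp_coeff (j k : Fin τ.m) (y : MonoidAlgebra ℤ H) (s : H) :
    (τ.mp j y).coeff (τ.e (s, k)) = if j = k then y.coeff s else 0 := by
  show Finsupp.mapDomain (fun h => τ.e (h, j)) y.coeff (τ.e (s, k)) = _
  split_ifs with h
  · subst h
    exact Finsupp.mapDomain_apply (τ.inj_j j) _ _
  · apply Finsupp.mapDomain_of_notMem_range
    rintro ⟨h', hh⟩
    exact h (congrArg Prod.snd (τ.e.injective hh))

theorem augm_single {G : Type} [Group G] (g : G) (c : ℤ) : augm G (MonoidAlgebra.single g c) = c := by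
  simp [augm]

theorem augm_mp (j : Fin τ.m) (y : MonoidAlgebra ℤ H) : augm Γ (τ.mp j y) = augm H y := by
  induction y using MonoidAlgebra.induction_linear with
  | zero => rw [mp_zero, map_zero, map_zero]
  | add a b ha hb => rw [mp_add, map_add, map_add, ha, hb]
  | single g c => rw [mp_single, augm_single, augm_single]

theorem mul_blk (y : MonoidAlgebra ℤ H) (a : MonoidAlgebra ℤ Γ) (j k : Fin τ.m) (h : H) :
    (y * τ.blk a j k).coeff h = (τ.mp j y * a).coeff (τ.e (h, k)) := by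
  induction y using MonoidAlgebra.induction_linear with
  | zero => rw [mp_zero, zero_mul, zero_mul]; simp
  | add x y hx hy =>
    rw [mp_add, add_mul, add_mul, MonoidAlgebra.coeff_add, MonoidAlgebra.coeff_add, Finsupp.add_apply,
      Finsupp.add_apply, hx, hy]
  | single s c =>
    rw [mp_single, MonoidAlgebra.coeff_single_mul_apply, MonoidAlgebra.coeff_single_mul_apply, blk_coeff,
      e_apply, e_apply, map_mul τ.φ, map_inv τ.φ]
    congr 2
    group

/-- the numbering of the basis -/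
abbrev ix (n : ℕ) : Fin (τ.m * n) ≃ Fin τ.m × Fin n := finProdFinEquiv.symm

/-- the identification of the modules -/
noncomputable def Ph {n : ℕ} (x : Fin (τ.m * n) → MonoidAlgebra ℤ H) (l : Fin n) : MonoidAlgebra ℤ Γ :=
  ∑ j, τ.mp j (x ((τ.ix n).symm (j, l)))

theorem sum_coeff {G ι : Type} [Group G] (s : Finset ι) (f : ι → MonoidAlgebra ℤ G) (g : G) :
    (∑ i ∈ s, f i).coeff g = ∑ i ∈ s, (f i).coeff g := by
  rw [MonoidAlgebra.coeff_sum, Finsupp.finsetSum_apply]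

theorem Ph_coeff {n : ℕ} (x : Fin (τ.m * n) → MonoidAlgebra ℤ H) (l : Fin n) (h : H) (k : Fin τ.m) :
    (τ.Ph x l).coeff (τ.e (h, k)) = (x ((τ.ix n).symm (k, l))).coeff h := by
  rw [Ph, sum_coeff, sum_eq_single k]
  · rw [mp_coeff, if_pos rfl]
  · intro j _ hj
    rw [mp_coeff, if_neg hj]
  · intro h; exact absurd (mem_univ _) h

/-- the inverse -/
noncomputable def Ps {n : ℕ} (y : Fin n → MonoidAlgebra ℤ Γ) (p : Fin (τ.m * n)) : MonoidAlgebra ℤ H :=
  MonoidAlgebra.ofCoeff (Finsupp.comapDomain (fun h : H => τ.e (h, (τ.ix n p).1)) (y (τ.ix n p).2).coeff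
    (τ.inj_j _).injOn)

theorem Ps_coeff {n : ℕ} (y : Fin n → MonoidAlgebra ℤ Γ) (p : Fin (τ.m * n)) (h : H) :
    (τ.Ps y p).coeff h = (y (τ.ix n p).2).coeff (τ.e (h, (τ.ix n p).1)) := rfl

theorem Ph_Ps {n : ℕ} (y : Fin n → MonoidAlgebra ℤ Γ) : τ.Ph (τ.Ps y) = y := by
  funext l
  ext g
  obtain ⟨⟨h, k⟩, rfl⟩ := τ.e.surjective g
  rw [Ph_coeff, Ps_coeff, Equiv.apply_symm_apply]

theorem Ph_inj {n : ℕ} : Function.Injective (τ.Ph (n := n)) := by
  intro x y hxy
  funext p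
  ext h
  have h1 := Ph_coeff τ x (τ.ix n p).2 h (τ.ix n p).1
  have h2 := Ph_coeff τ y (τ.ix n p).2 h (τ.ix n p).1
  rw [hxy] at h1
  rw [h1] at h2
  have h3 : ((τ.ix n p).1, (τ.ix n p).2) = τ.ix n p := rfl
  rw [h3, Equiv.symm_apply_apply] at h2
  exact h2

/-- the restricted matrix -/
noncomputable def rM {b a : ℕ} (D : Matrix (Fin b) (Fin a) (MonoidAlgebra ℤ Γ)) :
    Matrix (Fin (τ.m * b)) (Fin (τ.m * a)) (MonoidAlgebra ℤ H) :=
  fun p q => τ.blk (D (τ.ix b p).2 (τ.ix a q).2) (τ.ix b p).1 (τ.ix a q).1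

theorem Ph_vecMul {b a : ℕ} (D : Matrix (Fin b) (Fin a) (MonoidAlgebra ℤ Γ))
    (x : Fin (τ.m * b) → MonoidAlgebra ℤ H) : τ.Ph (x ᵥ* τ.rM D) = τ.Ph x ᵥ* D := by
  funext l
  ext g
  obtain ⟨⟨h, k⟩, rfl⟩ := τ.e.surjective g
  rw [Ph_coeff, Matrix.vecMul, dotProduct, sum_coeff, Matrix.vecMul, dotProduct, sum_coeff]
  rw [← Equiv.sum_comp (τ.ix b).symm, Fintype.sum_prod_type, sum_comm]
  refine sum_congr rfl fun κ _ => ?_
  rw [Ph, sum_mul, sum_coeff]
  refine sum_congr rfl fun j _ => ?_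
  rw [rM, Equiv.apply_symm_apply, Equiv.apply_symm_apply, mul_blk]

theorem Ph_zero {n : ℕ} : τ.Ph (0 : Fin (τ.m * n) → MonoidAlgebra ℤ H) = 0 := by
  funext l
  rw [Ph]
  simp [mp_zero]

/-- the restricted resolution -/
noncomputable def res (X : FinRes Γ) : FinRes H where
  len := X.len
  n i := τ.m * X.n i
  d i := τ.rM (X.d i)
  aug p := X.aug (τ.ix (X.n 0) p).2
  n_eq_zero i hi := by rw [X.n_eq_zero i hi, mul_zero]
  surj := by
    obtain ⟨y, hy⟩ := X.surj
    refine ⟨τ.Ps y, ?_⟩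
    rw [← hy, ← Equiv.sum_comp (τ.ix (X.n 0)).symm, Fintype.sum_prod_type, sum_comm]
    refine sum_congr rfl fun l _ => ?_
    simp only [Equiv.apply_symm_apply]
    rw [← sum_mul]
    congr 1
    conv_rhs => rw [← τ.Ph_Ps y, Ph, map_sum]
    exact sum_congr rfl fun j _ => (τ.augm_mp j _).symm
  exact_zero := by
    intro x
    have h1 : ∑ p, augm H (x p) * X.aug (τ.ix (X.n 0) p).2 = ∑ l, augm Γ (τ.Ph x l) * X.aug l := by
      rw [← Equiv.sum_comp (τ.ix (X.n 0)).symm, Fintype.sum_prod_type, sum_comm]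
      refine sum_congr rfl fun l _ => ?_
      simp only [Equiv.apply_symm_apply]
      rw [← sum_mul]
      congr 1
      rw [Ph, map_sum]
      exact sum_congr rfl fun j _ => (τ.augm_mp j _).symm
    rw [h1, X.exact_zero]
    constructor
    · rintro ⟨y, hy⟩
      refine ⟨τ.Ps y, τ.Ph_inj ?_⟩
      rw [Ph_vecMul, Ph_Ps, hy]
    · rintro ⟨y, rfl⟩
      exact ⟨τ.Ph y, (τ.Ph_vecMul _ _).symm⟩
  exact_succ := by
    intro i x
    have h1 : x ᵥ* τ.rM (X.d i) = 0 ↔ τ.Ph x ᵥ* X.d i = 0 := by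
      rw [← Ph_vecMul]
      constructor
      · intro h; rw [h, Ph_zero]
      · intro h
        apply τ.Ph_inj
        rw [h, Ph_zero]
    rw [h1, X.exact_succ]
    constructor
    · rintro ⟨y, hy⟩
      refine ⟨τ.Ps y, τ.Ph_inj ?_⟩
      rw [Ph_vecMul, Ph_Ps, hy]
    · rintro ⟨y, rfl⟩
      exact ⟨τ.Ph y, (τ.Ph_vecMul _ _).symm⟩

/-- the function on the big group -/
noncomputable def bg {n : ℕ} (f : H → Fin (τ.m * n) → ℝ) (g : Γ) (l : Fin n) : ℝ :=
  f (τ.e.symm g).1 ((τ.ix n).symm ((τ.e.symm g).2, l))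

theorem bg_apply {n : ℕ} (f : H → Fin (τ.m * n) → ℝ) (h : H) (p : Fin (τ.m * n)) :
    τ.bg f (τ.e (h, (τ.ix n p).1)) (τ.ix n p).2 = f h p := by
  rw [bg, Equiv.symm_apply_apply]
  exact congrArg (f h) ((τ.ix n).symm_apply_apply p)

theorem cobdry_res (X : FinRes Γ) (i : ℕ) (f : H → Fin ((τ.res X).n i) → ℝ) (h : H)
    (p : Fin ((τ.res X).n (i + 1))) :
    cobdry (τ.res X) i f h p =
      cobdry X i (τ.bg (n := X.n i) f) (τ.e (h, (τ.ix (X.n (i + 1)) p).1)) (τ.ix (X.n (i + 1)) p).2 := by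
  have h1 : cobdry (τ.res X) i f h p = ∑ q : Fin (τ.m * X.n i),
      (τ.blk (X.d i (τ.ix (X.n (i + 1)) p).2 (τ.ix (X.n i) q).2) (τ.ix (X.n (i + 1)) p).1
        (τ.ix (X.n i) q).1).coeff.sum fun s c => (c : ℝ) * f (h * s) q := rfl
  rw [h1, cobdry, ← Equiv.sum_comp (τ.ix (X.n i)).symm, Fintype.sum_prod_type, sum_comm]
  refine sum_congr rfl fun l _ => ?_
  simp only [Equiv.apply_symm_apply]
  have h2 := τ.blk_sum (X.d i (τ.ix (X.n (i + 1)) p).2 l) (τ.ix (X.n (i + 1)) p).1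
    (fun s k => f (h * s) ((τ.ix (X.n i)).symm (k, l)))
  simp only [smul_eq_mul] at h2
  rw [h2]
  refine Finsupp.sum_congr fun g _ => ?_
  have h3 : τ.bg (n := X.n i) f (τ.e (h, (τ.ix (X.n (i + 1)) p).1) * g) l =
    f (τ.e.symm (τ.e (h, (τ.ix (X.n (i + 1)) p).1) * g)).1
      ((τ.ix (X.n i)).symm ((τ.e.symm (τ.e (h, (τ.ix (X.n (i + 1)) p).1) * g)).2, l)) := rfl
  rw [h3, e_apply, mul_assoc, symm_mul]

theorem bdry_res (X : FinRes Γ) (i : ℕ) (f : H → Fin ((τ.res X).n (i + 1)) → ℝ) (u : H)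
    (q : Fin ((τ.res X).n i)) :
    bdry (τ.res X) i f u q =
      bdry X i (τ.bg (n := X.n (i + 1)) f) (τ.e (u, (τ.ix (X.n i) q).1)) (τ.ix (X.n i) q).2 := by
  have h1 : bdry (τ.res X) i f u q = ∑ p : Fin (τ.m * X.n (i + 1)),
      (τ.blk (X.d i (τ.ix (X.n (i + 1)) p).2 (τ.ix (X.n i) q).2) (τ.ix (X.n (i + 1)) p).1
        (τ.ix (X.n i) q).1).coeff.sum fun s c => (c : ℝ) * f (u * s⁻¹) p := rfl
  rw [h1, bdry, ← Equiv.sum_comp (τ.ix (X.n (i + 1))).symm, Fintype.sum_prod_type, sum_comm]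
  refine sum_congr rfl fun κ _ => ?_
  simp only [Equiv.apply_symm_apply]
  have h2 := τ.blk_sum' (X.d i κ (τ.ix (X.n i) q).2) (τ.ix (X.n i) q).1
    (fun s j => f (u * s) ((τ.ix (X.n (i + 1))).symm (j, κ)))
  simp only [smul_eq_mul] at h2
  rw [h2]
  refine Finsupp.sum_congr fun g _ => ?_
  have h3 : τ.bg (n := X.n (i + 1)) f (τ.e (u, (τ.ix (X.n i) q).1) * g⁻¹) κ =
    f (τ.e.symm (τ.e (u, (τ.ix (X.n i) q).1) * g⁻¹)).1
      ((τ.ix (X.n (i + 1))).symm ((τ.e.symm (τ.e (u, (τ.ix (X.n i) q).1) * g⁻¹)).2, κ)) := rfl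
  rw [h3, e_apply, mul_assoc, symm_mul]

theorem bg_surj {n : ℕ} (F : Γ → Fin n → ℝ) :
    τ.bg (fun h p => F (τ.e (h, (τ.ix n p).1)) (τ.ix n p).2) = F := by
  funext g l
  rw [bg, Equiv.apply_symm_apply]
  exact congrFun (congrArg F (τ.e.apply_symm_apply g)) l

theorem bg_inj {n : ℕ} {f : H → Fin (τ.m * n) → ℝ} (h : τ.bg f = 0) : f = 0 := by
  funext a p
  have h1 := τ.bg_apply f a p
  rw [← h1, h]
  rfl

theorem bg_summable {n : ℕ} (f : H → Fin (τ.m * n) → ℝ) :
    (∀ l, Summable fun g => τ.bg f g l ^ 2) ↔ ∀ p, Summable fun h => f h p ^ 2 := by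
  constructor
  · intro h p
    have h1 := (h (τ.ix n p).2).comp_injective (τ.inj_j (τ.ix n p).1)
    refine h1.congr fun a => ?_
    show τ.bg f (τ.e (a, (τ.ix n p).1)) (τ.ix n p).2 ^ 2 = _
    rw [bg_apply]
  · intro h l
    rw [← τ.e.summable_iff]
    have h0 : ((fun g => τ.bg f g l ^ 2) ∘ τ.e) = fun q : H × Fin τ.m => f q.1 ((τ.ix n).symm (q.2, l)) ^ 2 := by
      funext q
      show τ.bg f (τ.e q) l ^ 2 = _
      rw [bg, Equiv.symm_apply_apply]
    rw [h0, summable_prod_of_nonneg (fun p => sq_nonneg _)]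
    refine ⟨fun x => (hasSum_fintype _).summable, ?_⟩
    simp only [tsum_fintype]
    exact summable_sum fun k _ => h _

theorem cycle_res (X : FinRes Γ) (i : ℕ) (f : H → Fin ((τ.res X).n i) → ℝ) :
    IsCycle (τ.res X) i f ↔ IsCycle X i (τ.bg (n := X.n i) f) := by
  cases i with
  | zero => exact ⟨fun _ => trivial, fun _ => trivial⟩
  | succ i =>
    constructor
    · intro h g l
      have h1 := (τ.bdry_res X i f (τ.e.symm g).1 ((τ.ix (X.n i)).symm ((τ.e.symm g).2, l))).symm.trans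
        (h _ _)
      rw [Equiv.apply_symm_apply] at h1
      have h2 : τ.e ((τ.e.symm g).1, (τ.e.symm g).2) = g := τ.e.apply_symm_apply g
      rw [h2] at h1
      exact h1
    · intro h u q
      rw [bdry_res]
      exact h _ _

theorem cocycle_res (X : FinRes Γ) (i : ℕ) (f : H → Fin ((τ.res X).n i) → ℝ) :
    (∀ g κ, cobdry (τ.res X) i f g κ = 0) ↔ ∀ g κ, cobdry X i (τ.bg (n := X.n i) f) g κ = 0 := by
  constructor
  · intro h g l
    have h1 := (τ.cobdry_res X i f (τ.e.symm g).1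
      ((τ.ix (X.n (i + 1))).symm ((τ.e.symm g).2, l))).symm.trans (h _ _)
    rw [Equiv.apply_symm_apply] at h1
    have h2 : τ.e ((τ.e.symm g).1, (τ.e.symm g).2) = g := τ.e.apply_symm_apply g
    rw [h2] at h1
    exact h1
  · intro h u q
    rw [cobdry_res]
    exact h _ _

/-- **Restriction to a subgroup of finite index.** -/
theorem l2_res (X : FinRes Γ) (i : ℕ) : L2Zero (τ.res X) i ↔ L2Zero X i := by
  constructor
  · intro h F hs hc hd
    set f : H → Fin (τ.m * X.n i) → ℝ := fun h p => F (τ.e (h, (τ.ix (X.n i) p).1)) (τ.ix (X.n i) p).2 with hf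
    have h1 : τ.bg f = F := τ.bg_surj F
    have h2 : f = 0 := by
      refine h f ?_ ?_ ?_
      · exact (τ.bg_summable f).mp (by rw [h1]; exact hs)
      · exact (τ.cycle_res X i f).mpr (by rw [h1]; exact hc)
      · exact (τ.cocycle_res X i f).mpr (by rw [h1]; exact hd)
    rw [← h1, h2]
    rfl
  · intro h f hs hc hd
    apply τ.bg_inj (n := X.n i)
    exact h _ ((τ.bg_summable f).mpr hs) ((τ.cycle_res X i f).mp hc) ((τ.cocycle_res X i f).mp hd)

end Trv

end Pool.Agent.H87.Act
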