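import Pool.Agent.H87.Act.Prod
import Pool.Agent.H87.Act.L2
import Pool.Agent.H87.Act.Res2

/-!
# Groups commensurable with right-angled Artin groups
-/

set_option autoImplicit false
set_option linter.unusedSectionVars false

namespace Pool.Agent.H87.Act

open Finset Pool.Agent.W326.DU Pool.Agent.Q121.HC Pool.Agent.R779.CT Pool.Agent.H87.Oct
open Pool.Agent.H919R4.ZS (FinRes)

/-- acyclicity for groups which are commensurable with right-angled Artin groups -/
theorem ex2_of_comm {V : Type} [Fintype V] [LinearOrder V] (G : SimpleGraph V) {Γ' : Type} [Group Γ']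
    (ψ : Γ' →* RAAG G.Adj) (hψ : Function.Injective ψ) (hψ' : ψ.range.FiniteIndex)
    {X : Type} [TopologicalSpace X] [ContractibleSpace X] [MulAction Γ' X]
    (hact : ∀ γ : Γ', Continuous fun x : X => γ • x)
    (hp : ∀ K : Set X, IsCompact K → {γ : Γ' | ∃ x ∈ K, γ • x ∈ K}.Finite) {n : ℕ}
    (ι : X × X → (Fin (2 * n + 1) → ℝ)) (hι : Continuous ι) (hinj : Function.Injective ι)
    {i : ℕ} (hi : n < 2 * i) : Ex2 G i := by
  have h1 : ∀ v : V, ∃ (N : ℕ) (g : Γ'), 0 < N ∧ ψ g = gen G.Adj v ^ N := by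
    intro v
    obtain ⟨N, hN, _, g, hg⟩ := Subgroup.exists_pow_mem_of_index_ne_zero hψ'.index_ne_zero (gen G.Adj v)
    exact ⟨N, g, hN, hg⟩
  choose N g hN hg using h1
  refine ex2_of_action (g := g) hact ?_ (fun v => (chi G v).comp ψ) ?_ ?_ hp ι hι hinj hi
  · intro u v huv
    apply hψ
    rw [map_mul, map_mul, hg, hg]
    have h2 : Commute (gen G.Adj u) (gen G.Adj v) := gen_comm G.Adj huv
    exact (h2.pow_pow _ _).eq
  · intro u v huv
    rw [MonoidHom.comp_apply, hg, map_pow, chi_ne huv, one_pow]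
  · intro v k hk
    rw [MonoidHom.comp_apply, hg, map_pow, ← zpow_natCast, ← zpow_mul] at hk
    have h2 := chi_pow v _ hk
    rcases mul_eq_zero.mp h2 with h3 | h3
    · have := hN v
      omega
    · exact h3

/-- **The main theorem.** -/
theorem main {V : Type} [Finite V] (G : SimpleGraph V) {Γ Γ' : Type} [Group Γ] [Group Γ']
    (φ : Γ' →* Γ) (hφ : Function.Injective φ) (hφ' : φ.range.FiniteIndex)
    (ψ : Γ' →* RAAG G.Adj) (hψ : Function.Injective ψ) (hψ' : ψ.range.FiniteIndex)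
    {X : Type} [TopologicalSpace X] [ContractibleSpace X] [MulAction Γ' X]
    (hact : ∀ γ : Γ', Continuous fun x : X => γ • x)
    (hp : ∀ K : Set X, IsCompact K → {γ : Γ' | ∃ x ∈ K, γ • x ∈ K}.Finite) {n : ℕ}
    (ι : X × X → (Fin (2 * n + 1) → ℝ)) (hι : Continuous ι) (hinj : Function.Injective ι)
    (Z : FinRes Γ) {i : ℕ} (hi : n < 2 * i) : L2Zero Z i := by
  classical
  have : Fintype V := Fintype.ofFinite V
  let _ : LinearOrder V := LinearOrder.lift' (Fintype.equivFin V) (Equiv.injective _)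
  have h1 : Ex2 G i := ex2_of_comm G ψ hψ hψ' hact hp ι hι hinj hi
  obtain ⟨τ, _⟩ := exists_trv ψ hψ hψ'
  obtain ⟨τ', _⟩ := exists_trv φ hφ hφ'
  cases i with
  | zero => omega
  | succ i =>
    exact (τ'.l2_res Z (i + 1)).mp (l2_indep _ _ i ((τ.l2_res (salv G) (i + 1)).mpr (l2_raag h1 (salv G))))

end Pool.Agent.H87.Act
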