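import Pool.Agent.H87.Act.Cube

/-!
# Equivariant maps of flats
-/

set_option autoImplicit false

namespace Pool.Agent.H87.Act

open Finset

variable {V : Type} [Fintype V] [DecidableEq V]

section prod

variable {Γ : Type} [Group Γ] (g : V → Γ)

/-- the ordered product of the powers -/
def prl (l : List V) (a : V → ℤ) : Γ := (l.map fun u => g u ^ a u).prod

/-- the product over all vertices -/
noncomputable def pr (a : V → ℤ) : Γ := prl g (univ : Finset V).toList a

variable {g}

omit [Fintype V] [DecidableEq V] in
theorem prl_cons (v : V) (l : List V) (a : V → ℤ) : prl g (v :: l) a = g v ^ a v * prl g l a := by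
  simp [prl]

omit [Fintype V] [DecidableEq V] in
theorem commute_prl {x : Γ} {l : List V} {a : V → ℤ} (h : ∀ u ∈ l, a u ≠ 0 → Commute x (g u)) :
    Commute x (prl g l a) := by
  induction l with
  | nil => simp [prl]
  | cons v l ih =>
    rw [prl_cons]
    refine Commute.mul_right ?_ (ih fun u hu => h u (List.mem_cons_of_mem v hu))
    by_cases h0 : a v = 0
    · rw [h0, zpow_zero]; exact Commute.one_right x
    · exact (h v List.mem_cons_self h0).zpow_right _

omit [Fintype V] [DecidableEq V] in
theorem prl_add {l : List V} (hl : l.Nodup) {a b : V → ℤ}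
    (h : ∀ u v, u ≠ v → a u ≠ 0 → b v ≠ 0 → Commute (g u) (g v)) :
    prl g l (a + b) = prl g l a * prl g l b := by
  induction l with
  | nil => simp [prl]
  | cons v l ih =>
    rw [List.nodup_cons] at hl
    rw [prl_cons, prl_cons, prl_cons, ih hl.2, Pi.add_apply, zpow_add]
    have hc : Commute (g v ^ b v) (prl g l a) := by
      by_cases h0 : b v = 0
      · rw [h0, zpow_zero]; exact Commute.one_left _
      · refine Commute.zpow_left (commute_prl fun u hu hau => ?_) _
        exact (h u v (fun e => hl.1 (e ▸ hu)) hau h0).symm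
    calc g v ^ a v * g v ^ b v * (prl g l a * prl g l b)
        = g v ^ a v * (g v ^ b v * prl g l a) * prl g l b := by group
      _ = g v ^ a v * (prl g l a * g v ^ b v) * prl g l b := by rw [hc.eq]
      _ = _ := by group

theorem pr_add {a b : V → ℤ} (h : ∀ u v, u ≠ v → a u ≠ 0 → b v ≠ 0 → Commute (g u) (g v)) :
    pr g (a + b) = pr g a * pr g b := prl_add (Finset.nodup_toList _) h

omit [Fintype V] in
theorem prl_single {l : List V} (hl : l.Nodup) (v : V) (k : ℤ) :
    prl g l (Pi.single v k) = if v ∈ l then g v ^ k else 1 := by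
  induction l with
  | nil => simp [prl]
  | cons w l ih =>
    rw [List.nodup_cons] at hl
    rw [prl_cons, ih hl.2]
    by_cases h : w = v
    · subst h
      rw [Pi.single_eq_same, if_neg hl.1, if_pos List.mem_cons_self, mul_one]
    · rw [Pi.single_eq_of_ne h, zpow_zero, one_mul]
      by_cases h2 : v ∈ l
      · rw [if_pos h2, if_pos (List.mem_cons_of_mem _ h2)]
      · rw [if_neg h2, if_neg]
        rw [List.mem_cons, not_or]
        exact ⟨fun e => h e.symm, h2⟩

theorem pr_single (v : V) (k : ℤ) : pr g (Pi.single v k) = g v ^ k := by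
  unfold pr
  rw [prl_single (Finset.nodup_toList _), if_pos]
  rw [Finset.mem_toList]
  exact mem_univ v

theorem pr_zero : pr g (0 : V → ℤ) = 1 := by
  unfold pr prl
  simp

theorem map_prl {Γ' : Type} [Group Γ'] (φ : Γ →* Γ') (l : List V) (a : V → ℤ) :
    φ (prl g l a) = prl (fun v => φ (g v)) l a := by
  induction l with
  | nil => simp [prl]
  | cons v l ih => rw [prl_cons, prl_cons, map_mul, map_zpow, ih]

theorem map_pr {Γ' : Type} [Group Γ'] (φ : Γ →* Γ') (a : V → ℤ) :
    φ (pr g a) = pr (fun v => φ (g v)) a := map_prl φ _ a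

theorem pr_of_one {v : V} (h : ∀ u, u ≠ v → g u = 1) (a : V → ℤ) : pr g a = g v ^ a v := by
  have key : ∀ l : List V, l.Nodup → prl g l a = if v ∈ l then g v ^ a v else 1 := by
    intro l hl
    induction l with
    | nil => simp [prl]
    | cons w l ih =>
      rw [List.nodup_cons] at hl
      rw [prl_cons, ih hl.2]
      by_cases h1 : w = v
      · subst h1
        rw [if_neg hl.1, if_pos List.mem_cons_self, mul_one]
      · rw [h w h1, one_zpow, one_mul]
        by_cases h2 : v ∈ l
        · rw [if_pos h2, if_pos (List.mem_cons_of_mem _ h2)]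
        · rw [if_neg h2, if_neg]
          rw [List.mem_cons, not_or]
          exact ⟨fun e => h1 e.symm, h2⟩
  unfold pr
  rw [key _ (Finset.nodup_toList _), if_pos]
  rw [Finset.mem_toList]
  exact mem_univ v

end prod

/-- the support -/
noncomputable def sup (y : V → ℝ) : Finset V := open Classical in univ.filter (fun v => y v ≠ 0)

omit [DecidableEq V] in
theorem mem_sup {y : V → ℝ} {v : V} : v ∈ sup y ↔ y v ≠ 0 := by simp [sup]

/-- the cubes over a family of faces -/
def CF (F : Finset (Finset V)) : Set (V → ℝ) := {y | (∀ v, 0 ≤ y v ∧ y v ≤ 1) ∧ sup y ∈ F}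

/-- the coordinates equal to one -/
noncomputable def one (y : V → ℝ) : V → ℤ := open Classical in fun v => if y v = 1 then 1 else 0

/-- the reduced point -/
noncomputable def red (y : V → ℝ) : V → ℝ := open Classical in fun v => if y v = 1 then 0 else y v

variable {G : SimpleGraph V} {Γ : Type} [Group Γ] {g : V → Γ} {X : Type} [TopologicalSpace X] [MulAction Γ X]

theorem mem_CF_update {F : Finset (Finset V)} (hd : ∀ σ ∈ F, ∀ τ : Finset V, τ ⊆ σ → τ ∈ F) {y : V → ℝ}
    (hy : y ∈ CF F) (v : V) : Function.update y v 0 ∈ CF F := by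
  refine ⟨fun w => ?_, hd _ hy.2 _ ?_⟩
  · by_cases h : w = v
    · subst h; rw [Function.update_self]; norm_num
    · rw [Function.update_of_ne h]; exact hy.1 w
  · intro w hw
    rw [mem_sup] at hw ⊢
    by_cases h : w = v
    · subst h; rw [Function.update_self] at hw; exact absurd rfl hw
    · rwa [Function.update_of_ne h] at hw

theorem red_update {y : V → ℝ} {v : V} (hv : y v = 1) : red (Function.update y v 0) = red y := by
  funext w
  unfold red
  by_cases h : w = v
  · subst h
    simp [hv]
  · simp [Function.update_of_ne h]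

theorem one_update {y : V → ℝ} {v : V} (hv : y v = 1) :
    one y = Pi.single v 1 + one (Function.update y v 0) := by
  funext w
  rw [Pi.add_apply]
  unfold one
  by_cases h : w = v
  · subst h
    simp [hv]
  · simp [Function.update_of_ne h, Pi.single_eq_of_ne h]

theorem pr_one_update (hg : ∀ u v, G.Adj u v → Commute (g u) (g v)) {y : V → ℝ}
    (hy : G.IsClique ((sup y : Finset V) : Set V)) {v : V} (hv : y v = 1) :
    pr g (one y) = g v * pr g (one (Function.update y v 0)) := by
  rw [one_update hv, pr_add, pr_single, zpow_one]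
  intro u w huw hu hw
  have hu' : u = v := by
    by_contra h
    exact hu (Pi.single_eq_of_ne h 1)
  subst hu'
  refine hg _ _ (hy ?_ ?_ huw)
  · rw [mem_coe, mem_sup, hv]; norm_num
  · rw [mem_coe, mem_sup]
    intro h0
    apply hw
    unfold one
    rw [Function.update_of_ne (Ne.symm huw), h0]
    simp

/-- the formula at several ones -/
theorem multi (hg : ∀ u v, G.Adj u v → Commute (g u) (g v)) {F : Finset (Finset V)}
    (hF : ∀ σ ∈ F, G.IsClique (σ : Set V)) (hd : ∀ σ ∈ F, ∀ τ : Finset V, τ ⊆ σ → τ ∈ F)
    {f : (V → ℝ) → X}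
    (hf : ∀ y ∈ CF F, ∀ v, y v = 1 → f y = g v • f (Function.update y v 0)) :
    ∀ y ∈ CF F, f y = pr g (one y) • f (red y) := by
  classical
  suffices H : ∀ (k : ℕ) (y : V → ℝ), (univ.filter (fun v => y v = 1)).card = k → y ∈ CF F →
      f y = pr g (one y) • f (red y) from fun y hy => H _ y rfl hy
  intro k
  induction k with
  | zero =>
    intro y hk _
    rw [card_eq_zero] at hk
    have h0 : ∀ v, y v ≠ 1 := by
      intro v hv
      have : v ∈ univ.filter (fun v => y v = 1) := mem_filter.mpr ⟨mem_univ v, hv⟩
      rw [hk] at this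
      exact notMem_empty v this
    have h1 : one y = 0 := by
      funext v
      unfold one
      rw [if_neg (h0 v)]
      rfl
    have h2 : red y = y := by
      funext v
      unfold red
      rw [if_neg (h0 v)]
    rw [h1, h2, pr_zero, one_smul]
  | succ k ih =>
    intro y hk hy
    obtain ⟨v, hv⟩ : (univ.filter (fun v => y v = 1)).Nonempty := by
      rw [← card_pos]; omega
    have hv1 : y v = 1 := (mem_filter.mp hv).2
    have h1 : (univ.filter (fun w => Function.update y v 0 w = 1)).card = k := by
      have h2 : univ.filter (fun w => Function.update y v 0 w = 1) =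
          (univ.filter (fun w => y w = 1)).erase v := by
        ext w
        simp only [mem_filter, mem_univ, true_and, mem_erase]
        by_cases h : w = v
        · subst h; simp
        · simp [Function.update_of_ne h, h]
      rw [h2, card_erase_of_mem hv, hk]
      rfl
    rw [hf y hy v hv1, ih _ h1 (mem_CF_update hd hy v), red_update hv1, smul_smul,
      pr_one_update hg (hF _ hy.2) hv1]

theorem CF_eq {F : Finset (Finset V)} (hd : ∀ σ ∈ F, ∀ τ : Finset V, τ ⊆ σ → τ ∈ F) :
    CF F = ⋃ σ ∈ F, cube σ := by
  ext y
  simp only [Set.mem_iUnion]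
  constructor
  · intro hy
    refine ⟨sup y, hy.2, hy.1, fun v hv => ?_⟩
    by_contra h
    exact hv (mem_sup.mpr h)
  · rintro ⟨σ, hσ, h1, h2⟩
    refine ⟨h1, hd σ hσ _ fun v hv => ?_⟩
    by_contra h
    exact (mem_sup.mp hv) (h2 v h)

theorem isClosed_CF {F : Finset (Finset V)} (hd : ∀ σ ∈ F, ∀ τ : Finset V, τ ⊆ σ → τ ∈ F) :
    IsClosed (CF F) := by
  rw [CF_eq hd]
  exact Set.Finite.isClosed_biUnion (Finset.finite_toSet F) fun σ _ => isClosed_cube σ

/-- **The equivariant map on the cubes.** -/
theorem exists_cube_map [ContractibleSpace X] (hact : ∀ γ : Γ, Continuous fun x : X => γ • x)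
    (hg : ∀ u v, G.Adj u v → Commute (g u) (g v)) :
    ∀ F : Finset (Finset V), (∀ σ ∈ F, G.IsClique (σ : Set V)) →
      (∀ σ ∈ F, ∀ τ : Finset V, τ ⊆ σ → τ ∈ F) →
      ∃ f : (V → ℝ) → X, ContinuousOn f (CF F) ∧
        ∀ y ∈ CF F, ∀ v, y v = 1 → f y = g v • f (Function.update y v 0) := by
  classical
  intro F
  induction F using Finset.strongInduction with
  | H F ih =>
    intro hF hd
    obtain ⟨x0⟩ : Nonempty X := inferInstance
    rcases F.eq_empty_or_nonempty with rfl | hne
    · refine ⟨fun _ => x0, continuousOn_const, ?_⟩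
      intro y hy
      exact absurd hy.2 (notMem_empty _)
    obtain ⟨σ, hσ, hmax⟩ := Finset.exists_max_image F card hne
    rcases σ.eq_empty_or_nonempty with rfl | hσne
    · refine ⟨fun _ => x0, continuousOn_const, ?_⟩
      intro y hy v hv
      have h1 := hmax _ hy.2
      rw [card_empty, Nat.le_zero, card_eq_zero] at h1
      have h2 : v ∈ sup y := mem_sup.mpr (by rw [hv]; norm_num)
      rw [h1] at h2
      exact absurd h2 (notMem_empty v)
    set F' := F.erase σ with hF'
    have hd' : ∀ τ ∈ F', ∀ ρ : Finset V, ρ ⊆ τ → ρ ∈ F' := by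
      intro τ hτ ρ hρ
      rw [hF', mem_erase] at hτ ⊢
      refine ⟨?_, hd τ hτ.2 ρ hρ⟩
      rintro rfl
      have h1 := hmax τ hτ.2
      exact hτ.1 (eq_of_subset_of_card_le hρ h1).symm
    have hFc' : ∀ τ ∈ F', G.IsClique (τ : Set V) := fun τ hτ => hF τ (mem_of_mem_erase hτ)
    obtain ⟨f', hf'c, hf'⟩ := ih F' (erase_ssubset hσ) hFc' hd'
    have hm' := multi hg hFc' hd' hf'
    set h : (V → ℝ) → X := fun y => pr g (one y) • f' (red y) with hh
    -- the boundary values are continuous
    have hlow : ∀ y ∈ cube σ, ∀ v ∈ σ, y v = 0 → y ∈ CF F' := by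
      intro y hy v hv hv0
      refine ⟨hy.1, ?_⟩
      rw [hF', mem_erase]
      refine ⟨?_, hd σ hσ _ fun w hw => ?_⟩
      · intro e
        rw [← e, mem_sup] at hv
        exact hv hv0
      · by_contra h1
        exact (mem_sup.mp hw) (hy.2 w h1)
    have hclique : ∀ y ∈ cube σ, G.IsClique ((sup y : Finset V) : Set V) := by
      intro y hy
      refine (hF σ hσ).subset ?_
      intro w hw
      rw [mem_coe] at hw ⊢
      by_contra h1
      exact (mem_sup.mp hw) (hy.2 w h1)
    have hupd : ∀ y ∈ cube σ, ∀ v ∈ σ, Function.update y v 0 ∈ cube σ := by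
      intro y hy v hv
      refine ⟨fun w => ?_, fun w hw => ?_⟩
      · by_cases e : w = v
        · subst e; rw [Function.update_self]; norm_num
        · rw [Function.update_of_ne e]; exact hy.1 w
      · have hwv : w ≠ v := by
          rintro rfl
          exact hw hv
        rw [Function.update_of_ne hwv]
        exact hy.2 w hw
    have hbdc : bdc σ = ⋃ p ∈ (σ ×ˢ (univ : Finset Bool)),
        (cube σ ∩ {y : V → ℝ | y p.1 = if p.2 then 1 else 0}) := by
      ext y
      simp only [Set.mem_iUnion, mem_product, mem_univ, and_true, Set.mem_inter_iff, Set.mem_ofPred_eq]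
      constructor
      · rintro ⟨hy, v, hv, h0 | h0⟩
        · exact ⟨(v, false), hv, hy, by simpa using h0⟩
        · exact ⟨(v, true), hv, hy, by simpa using h0⟩
      · rintro ⟨⟨v, b⟩, hv, hy, h0⟩
        refine ⟨hy, v, hv, ?_⟩
        cases b
        · left; simpa using h0
        · right; simpa using h0
    have hhc : ContinuousOn h (bdc σ) := by
      rw [hbdc]
      refine continuousOn_finset_union _ _ ?_ ?_
      · rintro ⟨v, b⟩ _
        exact (isClosed_cube σ).inter (isClosed_eq (continuous_apply v) continuous_const)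
      · rintro ⟨v, b⟩ hv
        rw [mem_product] at hv
        cases b
        · refine (hf'c.mono ?_).congr (f := f') ?_
          · rintro y ⟨hy, hy0⟩
            exact hlow y hy v hv.1 (by simpa using hy0)
          · rintro y ⟨hy, hy0⟩
            exact (hm' y (hlow y hy v hv.1 (by simpa using hy0))).symm
        · have h1 : ContinuousOn (fun y : V → ℝ => g v • f' (Function.update y v 0))
              (cube σ ∩ {y : V → ℝ | y v = if true = true then 1 else 0}) := by
            refine (hact (g v)).comp_continuousOn (hf'c.comp ?_ ?_)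
            · exact (continuous_id.update v continuous_const).continuousOn
            · rintro y ⟨hy, hy1⟩
              exact hlow _ (hupd y hy v hv.1) v hv.1 (Function.update_self _ _ _)
          refine h1.congr ?_
          rintro y ⟨hy, hy1⟩
          have hy1 : y v = 1 := by simpa using hy1
          simp only [hh]
          rw [hm' _ (hlow _ (hupd y hy v hv.1) v hv.1 (Function.update_self _ _ _)), red_update hy1,
            smul_smul, pr_one_update hg (hclique y hy) hy1]
    obtain ⟨H, hHc, hH⟩ := extend_cube hσne hhc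
    set f : (V → ℝ) → X := fun y => if sup y = σ then H y else f' y with hf
    have hfF' : ∀ y ∈ CF F', f y = f' y := by
      intro y hy
      rw [hf]
      simp only
      rw [if_neg]
      intro e
      have := hy.2
      rw [e, hF', mem_erase] at this
      exact this.1 rfl
    have hfH : ∀ y ∈ cube σ, f y = H y := by
      intro y hy
      by_cases e : sup y = σ
      · rw [hf]
        simp only
        rw [if_pos e]
      · obtain ⟨v, hv, hv0⟩ : ∃ v ∈ σ, y v = 0 := by
          by_contra h1
          push Not at h1
          apply e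
          ext w
          rw [mem_sup]
          constructor
          · intro h2
            by_contra h3
            exact h2 (hy.2 w h3)
          · exact h1 w
        rw [hfF' y (hlow y hy v hv hv0), hH y ⟨hy, v, hv, Or.inl hv0⟩, hm' y (hlow y hy v hv hv0)]
    have hCF : CF F = CF F' ∪ cube σ := by
      ext y
      constructor
      · intro hy
        by_cases e : sup y = σ
        · right
          refine ⟨hy.1, fun v hv => ?_⟩
          by_contra h1
          rw [← e] at hv
          exact hv (mem_sup.mpr h1)
        · left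
          exact ⟨hy.1, mem_erase.mpr ⟨e, hy.2⟩⟩
      · rintro (hy | hy)
        · exact ⟨hy.1, mem_of_mem_erase hy.2⟩
        · refine ⟨hy.1, hd σ hσ _ fun w hw => ?_⟩
          by_contra h1
          exact (mem_sup.mp hw) (hy.2 w h1)
    refine ⟨f, ?_, ?_⟩
    · rw [hCF]
      refine ContinuousOn.union_of_isClosed (hf'c.congr hfF') (hHc.congr hfH) (isClosed_CF hd')
        (isClosed_cube σ)
    · intro y hy v hv
      by_cases e : sup y = σ
      · have hyc : y ∈ cube σ := by
          refine ⟨hy.1, fun v hv => ?_⟩
          by_contra h1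
          rw [← e] at hv
          exact hv (mem_sup.mpr h1)
        have hvσ : v ∈ σ := by
          rw [← e, mem_sup, hv]; norm_num
        have hy' := hlow _ (hupd y hyc v hvσ) v hvσ (Function.update_self _ _ _)
        rw [hfH y hyc, hH y ⟨hyc, v, hvσ, Or.inr hv⟩, hfF' _ hy']
        simp only [hh]
        rw [hm' _ hy', red_update hv, smul_smul, pr_one_update hg (hclique y hyc) hv]
      · have hy' : y ∈ CF F' := ⟨hy.1, mem_erase.mpr ⟨e, hy.2⟩⟩
        rw [hfF' y hy', hfF' _ (mem_CF_update hd' hy' v), hf' y hy' v hv]

end Pool.Agent.H87.Act
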