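import Pool.Agent.H87.Act.Flat

/-!
# The equivariant map of the union of flats
-/

set_option autoImplicit false
set_option linter.unusedSectionVars false

namespace Pool.Agent.H87.Act

open Finset

variable {V : Type} [Fintype V] [DecidableEq V]

variable {G : SimpleGraph V} {Γ : Type} [Group Γ] {g : V → Γ} {X : Type} [TopologicalSpace X] [MulAction Γ X]

/-- all cliques -/
noncomputable def clq (G : SimpleGraph V) : Finset (Finset V) :=
  open Classical in univ.filter (fun σ => G.IsClique (σ : Set V))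

theorem mem_clq {σ : Finset V} : σ ∈ clq G ↔ G.IsClique (σ : Set V) := by
  simp [clq]

theorem clq_down : ∀ σ ∈ clq G, ∀ τ : Finset V, τ ⊆ σ → τ ∈ clq G := by
  intro σ hσ τ hτ
  rw [mem_clq] at hσ ⊢
  exact hσ.subset (by exact_mod_cast hτ)

theorem clq_clique : ∀ σ ∈ clq G, G.IsClique (σ : Set V) := fun _ h => mem_clq.mp h

/-- the global map -/
noncomputable def glo (g : V → Γ) (f : (V → ℝ) → X) (y : V → ℝ) : X :=
  pr g (fun v => ⌊y v⌋) • f (fun v => Int.fract (y v))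

/-- cells -/
def cel (σ : Finset V) (m : V → ℤ) : Set (V → ℝ) := {y | (fun v => y v - m v) ∈ cube σ}

theorem isClosed_cel (σ : Finset V) (m : V → ℤ) : IsClosed (cel σ m) := by
  refine (isClosed_cube σ).preimage ?_
  exact continuous_pi fun v => (continuous_apply v).sub continuous_const

theorem floor_one {t : ℝ} (h0 : 0 ≤ t) (h1 : t ≤ 1) (m : ℤ) :
    ⌊(m : ℝ) + t⌋ = m + (if t = 1 then 1 else 0) := by
  split_ifs with h
  · rw [h]
    have : (m : ℝ) + 1 = ((m + 1 : ℤ) : ℝ) := by push_cast; rfl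
    rw [this, Int.floor_intCast]
  · have h2 : t < 1 := lt_of_le_of_ne h1 h
    rw [Int.floor_eq_iff]
    push_cast
    constructor <;> linarith

theorem cube_sup {σ : Finset V} {z : V → ℝ} (hz : z ∈ cube σ) : sup z ⊆ σ := by
  intro v hv
  by_contra h
  exact (mem_sup.mp hv) (hz.2 v h)

theorem cube_CF {σ : Finset V} (hσ : σ ∈ clq G) {z : V → ℝ} (hz : z ∈ cube σ) : z ∈ CF (clq G) :=
  ⟨hz.1, clq_down σ hσ _ (cube_sup hz)⟩

theorem glo_cel (hg : ∀ u v, G.Adj u v → Commute (g u) (g v)) {f : (V → ℝ) → X}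
    (hf : ∀ y ∈ CF (clq G), ∀ v, y v = 1 → f y = g v • f (Function.update y v 0))
    {σ : Finset V} (hσ : σ ∈ clq G) {m : V → ℤ} (hm : ∀ v, v ∉ σ → m v = 0) {y : V → ℝ} (hy : y ∈ cel σ m) :
    glo g f y = pr g m • f (fun v => y v - m v) := by
  set z : V → ℝ := fun v => y v - m v with hz
  have hzc : z ∈ cube σ := hy
  have h1 : (fun v => ⌊y v⌋) = m + one z := by
    funext v
    have e : y v = (m v : ℝ) + z v := by rw [hz]; ring
    rw [e, floor_one (hzc.1 v).1 (hzc.1 v).2]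
    simp [one]
  have h2 : (fun v => Int.fract (y v)) = red z := by
    funext v
    have h3 := congrFun h1 v
    simp only [Pi.add_apply] at h3
    rw [Int.fract, h3]
    unfold red one
    by_cases h : z v = 1
    · simp only [h, if_true]
      push_cast
      have e : y v = (m v : ℝ) + z v := by rw [hz]; ring
      rw [e, h]; ring
    · simp only [h, if_false]
      push_cast
      rw [hz]; ring
  rw [glo, h1, h2, pr_add, ← smul_smul, ← multi hg clq_clique clq_down hf z (cube_CF hσ hzc)]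
  intro u v huv hu hv
  refine hg u v ((mem_clq.mp hσ) ?_ ?_ huv)
  · by_contra h
    exact hu (hm u h)
  · by_contra h
    apply hv
    unfold one
    rw [if_neg]
    rw [hzc.2 v h]
    norm_num

/-- the bounded part -/
def bdd (G : SimpleGraph V) (R : ℕ) : Set (V → ℝ) := {y | sup y ∈ clq G ∧ ∀ v, |y v| ≤ R}

theorem bdd_sub (R : ℕ) : bdd G R ⊆ ⋃ p ∈ (clq G ×ˢ Fintype.piFinset (fun _ : V => Finset.Icc (-(R : ℤ)) R)).filter
    (fun p : Finset V × (V → ℤ) => ∀ v, v ∉ p.1 → p.2 v = 0), cel p.1 p.2 := by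
  intro y hy
  simp only [Set.mem_iUnion]
  refine ⟨(sup y, fun v => ⌊y v⌋), ?_, ?_⟩
  · rw [mem_filter, mem_product, Fintype.mem_piFinset]
    refine ⟨⟨hy.1, fun v => ?_⟩, fun v hv => ?_⟩
    · have h := abs_le.mp (hy.2 v)
      rw [Finset.mem_Icc]
      constructor
      · rw [Int.le_floor]; push_cast; exact h.1
      · have := Int.floor_le_floor h.2
        simpa using this
    · have : y v = 0 := by
        by_contra h
        exact hv (mem_sup.mpr h)
      simp [this]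
  · refine ⟨fun v => ⟨?_, ?_⟩, fun v hv => ?_⟩
    · have := Int.floor_le (y v)
      linarith
    · have := Int.lt_floor_add_one (y v)
      linarith
    · have : y v = 0 := by
        by_contra h
        exact hv (mem_sup.mpr h)
      simp [this]

theorem glo_cont (hact : ∀ γ : Γ, Continuous fun x : X => γ • x)
    (hg : ∀ u v, G.Adj u v → Commute (g u) (g v)) {f : (V → ℝ) → X} (hfc : ContinuousOn f (CF (clq G)))
    (hf : ∀ y ∈ CF (clq G), ∀ v, y v = 1 → f y = g v • f (Function.update y v 0)) (R : ℕ) :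
    ContinuousOn (glo g f) (bdd G R) := by
  classical
  refine ContinuousOn.mono ?_ (bdd_sub R)
  refine continuousOn_finset_union _ _ (fun p _ => isClosed_cel _ _) ?_
  rintro ⟨σ, m⟩ hp
  rw [mem_filter, mem_product] at hp
  have h1 : ContinuousOn (fun y : V → ℝ => pr g m • f (fun v => y v - m v)) (cel σ m) := by
    refine (hact _).comp_continuousOn (hfc.comp ?_ ?_)
    · exact (continuous_pi fun v => (continuous_apply v).sub continuous_const).continuousOn
    · intro y hy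
      exact cube_CF hp.1.1 hy
  exact h1.congr fun y hy => glo_cel hg hf hp.1.1 hp.2 hy

theorem isCompact_CF : IsCompact (CF (clq G)) := by
  refine IsCompact.of_isClosed_subset (isCompact_Icc (a := (0 : V → ℝ)) (b := 1)) (isClosed_CF clq_down) ?_
  intro y hy
  exact ⟨fun v => (hy.1 v).1, fun v => (hy.1 v).2⟩

theorem fract_CF {y : V → ℝ} (hy : sup y ∈ clq G) : (fun v => Int.fract (y v)) ∈ CF (clq G) := by
  refine ⟨fun v => ⟨Int.fract_nonneg _, (Int.fract_lt_one _).le⟩, clq_down _ hy _ ?_⟩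
  intro v hv
  rw [mem_sup] at hv ⊢
  intro h
  apply hv
  rw [h, Int.fract_zero]

/-- separation -/
theorem glo_sep {P : Type} [Group P] (ψ : V → Γ →* P) (hψ : ∀ u v, u ≠ v → ψ v (g u) = 1)
    (hψ' : ∀ v, ∀ k : ℤ, ψ v (g v) ^ k = 1 → k = 0) {f : (V → ℝ) → X}
    (hfc : ContinuousOn f (CF (clq G)))
    (hp : ∀ K : Set X, IsCompact K → {γ : Γ | ∃ x ∈ K, γ • x ∈ K}.Finite) :
    ∃ C : ℕ, ∀ y y' : V → ℝ, sup y ∈ clq G → sup y' ∈ clq G → glo g f y = glo g f y' →
      ∀ v, |y v - y' v| ≤ C := by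
  classical
  have hK : IsCompact (f '' CF (clq G)) := isCompact_CF.image_of_continuousOn hfc
  have hfin := hp _ hK
  set S := {γ : Γ | ∃ x ∈ f '' CF (clq G), γ • x ∈ f '' CF (clq G)} with hS
  have hfin2 : ∀ v, {k : ℤ | ψ v (g v) ^ k ∈ ψ v '' S}.Finite := by
    intro v
    refine (hfin.image (ψ v)).preimage ?_
    intro a _ b _ hab
    have hab : ψ v (g v) ^ a = ψ v (g v) ^ b := hab
    have h1 : ψ v (g v) ^ (a - b) = 1 := by rw [zpow_sub, hab, mul_inv_cancel]
    have := hψ' v _ h1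
    omega
  have hbd : ∀ v, ∃ C : ℕ, ∀ k ∈ {k : ℤ | ψ v (g v) ^ k ∈ ψ v '' S}, |k| ≤ C := by
    intro v
    obtain ⟨C, hC⟩ := ((hfin2 v).image (fun k => |k|)).bddAbove
    refine ⟨C.toNat, fun k hk => ?_⟩
    have h1 : |k| ≤ C := hC ⟨k, hk, rfl⟩
    exact h1.trans (Int.self_le_toNat C)
  choose C hC using hbd
  refine ⟨(∑ v, C v) + 1, ?_⟩
  intro y y' hy hy' h v
  unfold glo at h
  set γ : Γ := (pr g (fun v => ⌊y' v⌋))⁻¹ * pr g (fun v => ⌊y v⌋) with hγ
  have h1 : γ • f (fun v => Int.fract (y v)) = f (fun v => Int.fract (y' v)) := by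
    rw [hγ, mul_smul, h, inv_smul_smul]
  have h2 : γ ∈ S := ⟨_, ⟨_, fract_CF hy, rfl⟩, by rw [h1]; exact ⟨_, fract_CF hy', rfl⟩⟩
  have h3 : ψ v γ = ψ v (g v) ^ (⌊y v⌋ - ⌊y' v⌋) := by
    rw [hγ, map_mul, map_inv, map_pr, map_pr, pr_of_one (v := v) (fun u hu => hψ u v hu),
      pr_of_one (v := v) (fun u hu => hψ u v hu), ← zpow_neg, ← zpow_add]
    congr 1
    ring
  have h4 : |⌊y v⌋ - ⌊y' v⌋| ≤ (C v : ℤ) := hC v _ (by
    show ψ v (g v) ^ (⌊y v⌋ - ⌊y' v⌋) ∈ ψ v '' S
    rw [← h3]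
    exact ⟨γ, h2, rfl⟩)
  have h5 : (C v : ℝ) ≤ ∑ v, (C v : ℝ) :=
    Finset.single_le_sum (f := fun v => (C v : ℝ)) (fun _ _ => Nat.cast_nonneg _) (mem_univ v)
  have h6 : |(⌊y v⌋ : ℝ) - ⌊y' v⌋| ≤ C v := by exact_mod_cast h4
  have a1 := Int.floor_le (y v)
  have a2 := Int.lt_floor_add_one (y v)
  have a3 := Int.floor_le (y' v)
  have a4 := Int.lt_floor_add_one (y' v)
  rw [abs_le] at h6 ⊢
  push_cast
  constructor <;> linarith [h6.1, h6.2]

end Pool.Agent.H87.Act
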