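import Pool.Agent.H87.Act.Salv
import Pool.Graph.R_pool_sql_team_seeded_b0a926ef.R779.CT.Euler

/-!
# Injectivity of the products of the operators `g - 1`
-/

set_option autoImplicit false
set_option linter.unusedSectionVars false

namespace Pool.Agent.H87.Act

open Finset Pool.Agent.W907.SG Pool.Agent.W326.DU Pool.Agent.Q121.HC Pool.Agent.W649.ZL TH57.Thr.Ati
open scoped Matrix

section inj

variable {A : Type} [Group A]

/-- square summable functions -/
def SqS (f : A → ℂ) : Prop := Summable fun g => ‖f g‖ ^ 2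

theorem cv_sub_one (g : A) (f : A → ℂ) (u : A) :
    cv (MonoidAlgebra.of ℂ A g - 1) f u = f (g * u) - f u := by
  rw [sub_eq_add_neg, cv_add, cv_neg, cv_one, MonoidAlgebra.of_apply, cv_single, one_mul]
  ring

theorem SqS.shift {f : A → ℂ} (hf : SqS f) (g : A) : SqS fun u => f (g * u) :=
  hf.comp_injective (mul_right_injective g)

theorem SqS.sub {f f' : A → ℂ} (hf : SqS f) (hf' : SqS f') : SqS fun u => f u - f' u := by
  refine Summable.of_nonneg_of_le (fun _ => sq_nonneg _) (fun u => ?_)
    ((hf.mul_left 2).add (hf'.mul_left 2))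
  have h1 := norm_sub_le (f u) (f' u)
  have h2 := sq_nonneg (‖f u‖ - ‖f' u‖)
  have h3 := norm_nonneg (f u - f' u)
  nlinarith [norm_nonneg (f u), norm_nonneg (f' u)]

theorem SqS.cv_sub_one {f : A → ℂ} (hf : SqS f) (g : A) : SqS (cv (MonoidAlgebra.of ℂ A g - 1) f) := by
  have h : cv (MonoidAlgebra.of ℂ A g - 1) f = fun u => f (g * u) - f u :=
    funext fun u => Pool.Agent.H87.Act.cv_sub_one g f u
  rw [h]
  exact (hf.shift g).sub hf

theorem zero_of_invariant {g : A} (hg : ∀ n : ℕ, g ^ n = 1 → n = 0) {f : A → ℂ} (hf : SqS f)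
    (h : ∀ u, f (g * u) = f u) : f = 0 := by
  funext u
  have h1 : ∀ n : ℕ, f (g ^ n * u) = f u := by
    intro n
    induction n with
    | zero => simp
    | succ n ih => rw [pow_succ', mul_assoc, h, ih]
  have hinj : Function.Injective (fun n : ℕ => g ^ n * u) := by
    intro a b hab
    have hab : g ^ a = g ^ b := mul_right_cancel hab
    rcases le_total a b with hle | hle
    · have h2 : g ^ (b - a) = 1 := by
        have h3 : g ^ a * g ^ (b - a) = g ^ a * 1 := by
          rw [← pow_add, Nat.add_sub_cancel' hle, mul_one, hab]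
        exact mul_left_cancel h3
      have := hg _ h2
      omega
    · have h2 : g ^ (a - b) = 1 := by
        have h3 : g ^ b * g ^ (a - b) = g ^ b * 1 := by
          rw [← pow_add, Nat.add_sub_cancel' hle, mul_one, hab]
        exact mul_left_cancel h3
      have := hg _ h2
      omega
  have h2 := hf.comp_injective hinj
  have h3 : Summable fun _ : ℕ => ‖f u‖ ^ 2 := by
    refine h2.congr fun n => ?_
    show ‖f (g ^ n * u)‖ ^ 2 = ‖f u‖ ^ 2
    rw [h1]
  rw [summable_const_iff] at h3
  have h5 : ‖f u‖ = 0 := by simpa using h3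
  rw [norm_eq_zero] at h5
  rw [h5, Pi.zero_apply]

theorem prod_inj {V : Type} (g : V → A) (hg : ∀ v, ∀ n : ℕ, g v ^ n = 1 → n = 0) (l : List V) :
    ∀ {f : A → ℂ}, SqS f → (∀ u, cv ((l.map fun v => MonoidAlgebra.of ℂ A (g v) - 1).prod) f u = 0) → f = 0 := by
  induction l with
  | nil =>
    intro f _ h
    funext u
    have := h u
    rwa [List.map_nil, List.prod_nil, cv_one] at this
  | cons v l ih =>
    intro f hf h
    have h1 : cv (MonoidAlgebra.of ℂ A (g v) - 1) f = 0 := by
      refine ih (hf.cv_sub_one (g v)) fun u => ?_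
      rw [← cv_mul]
      have := h u
      rwa [List.map_cons, List.prod_cons] at this
    refine zero_of_invariant (hg v) hf fun u => ?_
    have h2 := congrFun h1 u
    rw [Pool.Agent.H87.Act.cv_sub_one, Pi.zero_apply] at h2
    exact sub_eq_zero.mp h2

end inj

section raag

variable {V : Type} [Fintype V] [LinearOrder V] {G : SimpleGraph V}

/-- the exponent sum of the generator `v` -/
noncomputable def chi (G : SimpleGraph V) (v : V) : RAAG G.Adj →* Multiplicative ℤ :=
  PresentedGroup.toGroup (f := fun w => Multiplicative.ofAdd (if w = v then (1 : ℤ) else 0)) (by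
    rintro r ⟨a, b, _, rfl⟩
    simp only [map_mul, map_inv, FreeGroup.lift_apply_of]
    rw [mul_comm (Multiplicative.ofAdd (if a = v then (1 : ℤ) else 0)), mul_assoc, mul_assoc,
      mul_inv_cancel_left, mul_inv_cancel])

theorem chi_gen (v w : V) : chi G v (gen G.Adj w) = Multiplicative.ofAdd (if w = v then (1 : ℤ) else 0) :=
  PresentedGroup.toGroup.of _

theorem chi_ne {v w : V} (h : w ≠ v) : chi G v (gen G.Adj w) = 1 := by
  rw [chi_gen, if_neg h]
  rfl

theorem chi_pow (v : V) (k : ℤ) (h : chi G v (gen G.Adj v) ^ k = 1) : k = 0 := by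
  rw [chi_gen, if_pos rfl, ← ofAdd_zsmul] at h
  have h2 : k • (1 : ℤ) = 0 := h
  simpa using h2

theorem gen_pow (v : V) (n : ℕ) (h : gen G.Adj v ^ n = 1) : n = 0 := by
  have h1 : chi G v (gen G.Adj v) ^ (n : ℤ) = 1 := by
    rw [zpow_natCast, ← map_pow, h, map_one]
  have := chi_pow v _ h1
  exact_mod_cast this

/-- the product over a clique -/
noncomputable def pP (G : SimpleGraph V) (T : Finset V) : MonoidAlgebra ℂ (RAAG G.Adj) :=
  ((T.sort (· ≤ ·)).map fun v => MonoidAlgebra.of ℂ (RAAG G.Adj) (gen G.Adj v) - 1).prod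

theorem comm_of_clique {T : Finset V} (hT : G.IsClique (T : Set V)) {a b : V} (ha : a ∈ T) (hb : b ∈ T) :
    Commute (MonoidAlgebra.of ℂ (RAAG G.Adj) (gen G.Adj a) - 1)
      (MonoidAlgebra.of ℂ (RAAG G.Adj) (gen G.Adj b) - 1) := by
  by_cases h : a = b
  · subst h; exact Commute.refl _
  · have h1 := gen_comm G.Adj (hT (mem_coe.mpr ha) (mem_coe.mpr hb) h)
    have h2 : Commute (MonoidAlgebra.of ℂ (RAAG G.Adj) (gen G.Adj a))
        (MonoidAlgebra.of ℂ (RAAG G.Adj) (gen G.Adj b)) := by
      show _ * _ = _ * _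
      rw [← map_mul, ← map_mul, h1]
    exact (h2.sub_left (Commute.one_left _)).sub_right
      ((Commute.one_right _).sub_left (Commute.one_left _))

theorem pP_insert {T : Finset V} {v : V} (hv : v ∉ T) (hT : G.IsClique ((insert v T : Finset V) : Set V)) :
    (MonoidAlgebra.of ℂ (RAAG G.Adj) (gen G.Adj v) - 1) * pP G T = pP G (insert v T) := by
  unfold pP
  rw [← List.prod_cons, ← List.map_cons (f := fun v => MonoidAlgebra.of ℂ (RAAG G.Adj) (gen G.Adj v) - 1)]
  have hperm : (v :: T.sort (· ≤ ·)).Perm ((insert v T).sort (· ≤ ·)) := by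
    rw [List.perm_ext_iff_of_nodup]
    · intro w
      simp
    · rw [List.nodup_cons]
      refine ⟨?_, Finset.sort_nodup _ _⟩
      rwa [Finset.mem_sort]
    · exact Finset.sort_nodup _ _
  refine List.Perm.prod_eq' (hperm.map _) ?_
  rw [List.pairwise_map]
  refine List.Pairwise.imp_of_mem (R := fun _ _ => True) ?_ (List.pairwise_of_forall fun _ _ => trivial)
  intro a b ha hb _
  refine comm_of_clique hT ?_ ?_
  · simpa using ha
  · simpa using hb

theorem pP_inj (T : Finset V) {f : RAAG G.Adj → ℂ} (hf : SqS f) (h : ∀ u, cv (pP G T) f u = 0) : f = 0 :=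
  prod_inj (gen G.Adj) (fun v n => gen_pow v n) _ hf h

end raag

end Pool.Agent.H87.Act
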