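import Pool.Agent.H87.Act.Glob
import Pool.Agent.H87.Oct.EmbOct

/-!
# The odd map given by an action
-/

set_option autoImplicit false
set_option linter.unusedSectionVars false

namespace Pool.Agent.H87.Act

open Finset Pool.Agent.W555.KS Pool.Agent.Y131.KS Pool.Agent.R782.Bal Pool.Agent.H87.Oct

variable {V : Type} [Fintype V] [DecidableEq V]

variable {G : SimpleGraph V} {N : ℕ} (e : V × Bool ≃ Fin N)

/-- the point of the union of flats given by the positive part -/
noncomputable def yp (x : Fin N → ℝ) (v : V) : ℝ := max (x (e (v, true))) 0 - max (x (e (v, false))) 0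

variable {e}

theorem abs_le_one {x : Fin N → ℝ} (hx : x ∈ dJoin (clF (oct G) e)) (i : Fin N) : |x i| ≤ 1 := by
  rw [← hx.1]
  exact Finset.single_le_sum (f := fun i => |x i|) (fun _ _ => abs_nonneg _) (mem_univ i)

theorem neg_dJoin {x : Fin N → ℝ} (hx : x ∈ dJoin (clF (oct G) e)) : -x ∈ dJoin (clF (oct G) e) := by
  obtain ⟨h1, h2, h3⟩ := hx
  refine ⟨by simpa using h1, by simpa using h3, by simpa using h2⟩

theorem adj_of_pos {x : Fin N → ℝ} (hx : x ∈ dJoin (clF (oct G) e)) {p q : V × Bool} (hpq : p ≠ q)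
    (hp : 0 < x (e p)) (hq : 0 < x (e q)) : G.Adj p.1 q.1 := by
  have h := mem_clF.mp hx.2.1
  have hp' : p ∈ (((univ.filter (fun i => 0 < x i)).map e.symm.toEmbedding : Finset (V × Bool)) :
      Set (V × Bool)) := by
    rw [mem_coe, mem_map]
    exact ⟨e p, mem_filter.mpr ⟨mem_univ _, hp⟩, e.symm_apply_apply p⟩
  have hq' : q ∈ (((univ.filter (fun i => 0 < x i)).map e.symm.toEmbedding : Finset (V × Bool)) :
      Set (V × Bool)) := by
    rw [mem_coe, mem_map]
    exact ⟨e q, mem_filter.mpr ⟨mem_univ _, hq⟩, e.symm_apply_apply q⟩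
  exact h hp' hq' hpq

theorem pos_of_yp {x : Fin N → ℝ} {v : V} (h : yp e x v ≠ 0) : ∃ b, 0 < x (e (v, b)) := by
  by_contra hcon
  push Not at hcon
  apply h
  unfold yp
  rw [max_eq_right (hcon true), max_eq_right (hcon false), sub_zero]

theorem yp_abs {x : Fin N → ℝ} (hx : x ∈ dJoin (clF (oct G) e)) (v : V) : |yp e x v| ≤ 1 := by
  unfold yp
  have h1 := abs_le.mp (abs_le_one hx (e (v, true)))
  have h2 := abs_le.mp (abs_le_one hx (e (v, false)))
  have h3 : max (x (e (v, true))) 0 ≤ 1 := max_le h1.2 zero_le_one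
  have h4 : max (x (e (v, false))) 0 ≤ 1 := max_le h2.2 zero_le_one
  have h5 : 0 ≤ max (x (e (v, true))) 0 := le_max_right _ _
  have h6 : 0 ≤ max (x (e (v, false))) 0 := le_max_right _ _
  rw [abs_le]
  constructor <;> linarith

theorem yp_mem {x : Fin N → ℝ} (hx : x ∈ dJoin (clF (oct G) e)) (R : ℕ) :
    (fun v => (R : ℝ) * yp e x v) ∈ bdd G R := by
  constructor
  · rw [mem_clq]
    intro u hu v hv huv
    rw [mem_coe, mem_sup] at hu hv
    obtain ⟨b, hb⟩ := pos_of_yp (right_ne_zero_of_mul hu)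
    obtain ⟨c, hc⟩ := pos_of_yp (right_ne_zero_of_mul hv)
    exact adj_of_pos hx (p := (u, b)) (q := (v, c)) (fun h => huv (congrArg Prod.fst h)) hb hc
  · intro v
    rw [abs_mul, Nat.abs_cast]
    have := yp_abs hx v
    have h2 : (0 : ℝ) ≤ R := Nat.cast_nonneg R
    nlinarith

theorem yp_cont (R : ℕ) : Continuous (fun x : Fin N → ℝ => (fun v => (R : ℝ) * yp e x v)) := by
  refine continuous_pi fun v => continuous_const.mul ?_
  unfold yp
  exact ((continuous_apply _).max continuous_const).sub ((continuous_apply _).max continuous_const)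

theorem yp_sub {x : Fin N → ℝ} (hx : x ∈ dJoin (clF (oct G) e)) (v : V) :
    |yp e x v - yp e (-x) v| = |x (e (v, true))| + |x (e (v, false))| := by
  have h0 : yp e x v - yp e (-x) v = x (e (v, true)) - x (e (v, false)) := by
    unfold yp
    have key : ∀ t : ℝ, max t 0 - max (-t) 0 = t := by
      intro t
      rcases le_total t 0 with h | h
      · rw [max_eq_right h, max_eq_left (by linarith)]; ring
      · rw [max_eq_left h, max_eq_right (by linarith)]; ring
    have h1 := key (x (e (v, true)))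
    have h2 := key (x (e (v, false)))
    simp only [Pi.neg_apply]
    linarith
  rw [h0]
  have h1 : ¬ (0 < x (e (v, true)) ∧ 0 < x (e (v, false))) := by
    rintro ⟨h1, h2⟩
    have := adj_of_pos hx (p := (v, true)) (q := (v, false)) (by simp) h1 h2
    exact this.ne rfl
  have h2 : ¬ (x (e (v, true)) < 0 ∧ x (e (v, false)) < 0) := by
    rintro ⟨h1, h2⟩
    have := adj_of_pos (neg_dJoin hx) (p := (v, true)) (q := (v, false)) (by simp)
      (by simpa using h1) (by simpa using h2)
    exact this.ne rfl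
  rcases lt_trichotomy (x (e (v, true))) 0 with ha | ha | ha
  · have hb : 0 ≤ x (e (v, false)) := by
      by_contra h
      exact h2 ⟨ha, not_le.mp h⟩
    rw [abs_of_neg ha, abs_of_nonneg hb, abs_of_nonpos (by linarith)]
    ring
  · rw [ha, zero_sub, abs_neg, abs_zero, zero_add]
  · have hb : x (e (v, false)) ≤ 0 := by
      by_contra h
      exact h1 ⟨ha, not_le.mp h⟩
    rw [abs_of_pos ha, abs_of_nonpos hb, abs_of_nonneg (by linarith)]
    ring

theorem yp_sum {x : Fin N → ℝ} (hx : x ∈ dJoin (clF (oct G) e)) :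
    ∑ v, |yp e x v - yp e (-x) v| = 1 := by
  rw [Finset.sum_congr rfl fun v _ => yp_sub hx v, ← hx.1, ← Equiv.sum_comp e, Fintype.sum_prod_type]
  refine Finset.sum_congr rfl fun v _ => ?_
  rw [Fintype.sum_bool]

variable {Γ : Type} [Group Γ] {g : V → Γ} {X : Type} [TopologicalSpace X] [MulAction Γ X]

/-- **The odd map.** -/
theorem odd_of_action {n : ℕ} [ContractibleSpace X] (hact : ∀ γ : Γ, Continuous fun x : X => γ • x)
    (hg : ∀ u v, G.Adj u v → Commute (g u) (g v))
    {P : Type} [Group P] (ψ : V → Γ →* P) (hψ : ∀ u v, u ≠ v → ψ v (g u) = 1)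
    (hψ' : ∀ v, ∀ k : ℤ, ψ v (g v) ^ k = 1 → k = 0)
    (hp : ∀ K : Set X, IsCompact K → {γ : Γ | ∃ x ∈ K, γ • x ∈ K}.Finite)
    (ι : X → (Fin n → ℝ)) (hι : Continuous ι) (hinj : Function.Injective ι) :
    OddMap (clF (oct G) e) n := by
  obtain ⟨f, hfc, hf⟩ := exists_cube_map hact hg (clq G) clq_clique clq_down
  obtain ⟨C, hC⟩ := glo_sep ψ hψ hψ' hfc hp
  set R : ℕ := Fintype.card V * C + 1 with hR
  refine ⟨fun x => ι (glo g f fun v => (R : ℝ) * yp e x v) - ι (glo g f fun v => (R : ℝ) * yp e (-x) v),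
    ?_, ?_⟩
  · refine ContinuousOn.sub ?_ ?_
    · exact hι.comp_continuousOn ((glo_cont hact hg hfc hf R).comp (yp_cont R).continuousOn
        fun x hx => yp_mem hx R)
    · exact hι.comp_continuousOn ((glo_cont hact hg hfc hf R).comp
        ((yp_cont R).comp continuous_neg).continuousOn fun x hx => yp_mem (neg_dJoin hx) R)
  · intro x hx
    refine ⟨by simp only [neg_neg]; abel, ?_⟩
    intro h0
    have h1 := hinj (sub_eq_zero.mp h0)
    have h2 := hC _ _ (yp_mem hx R).1 (yp_mem (neg_dJoin hx) R).1 h1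
    have h3 : (R : ℝ) * ∑ v, |yp e x v - yp e (-x) v| ≤ Fintype.card V * C := by
      rw [Finset.mul_sum]
      have h4 : ∀ v ∈ (univ : Finset V), (R : ℝ) * |yp e x v - yp e (-x) v| ≤ C := by
        intro v _
        have := h2 v
        rw [← mul_sub, abs_mul, Nat.abs_cast] at this
        exact this
      refine (Finset.sum_le_sum h4).trans ?_
      simp
    rw [yp_sum hx, mul_one, hR] at h3
    push_cast at h3
    linarith

/-- **Proper actions in `ℝ^n` and the obstruction.** -/
theorem obs_of_action {n : ℕ} [ContractibleSpace X] (hact : ∀ γ : Γ, Continuous fun x : X => γ • x)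
    (hg : ∀ u v, G.Adj u v → Commute (g u) (g v))
    {P : Type} [Group P] (ψ : V → Γ →* P) (hψ : ∀ u v, u ≠ v → ψ v (g u) = 1)
    (hψ' : ∀ v, ∀ k : ℤ, ψ v (g v) ^ k = 1 → k = 0)
    (hp : ∀ K : Set X, IsCompact K → {γ : Γ | ∃ x ∈ K, γ • x ∈ K}.Finite)
    (ι : X → (Fin n → ℝ)) (hι : Continuous ι) (hinj : Function.Injective ι) {D : ℕ} (hD : n < D) :
    Obs (oct G) D := by
  intro N e
  refine vk_of_vk2 (vk2_le (clF_cx (oct G) e) (D := n + 1) (by omega) ?_)
  exact vk2_of_odd (clF_cx (oct G) e) (odd_of_action hact hg ψ hψ hψ' hp ι hι hinj)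

end Pool.Agent.H87.Act
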