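import Pool.Agent.H87.Oct.Coh
import Pool.Agent.H87.Act.OddAct

/-!
# The join of two copies of a flag complex
-/

set_option autoImplicit false
set_option linter.unusedSectionVars false

namespace Pool.Agent.H87.Act

open Finset Module Pool.Agent.W907.SG Pool.Agent.R782.Bal Pool.Agent.H87.Oct

section defs

variable {V : Type}

/-- the join of two copies of the graph -/
def jn (G : SimpleGraph V) : SimpleGraph (V ⊕ V) where
  Adj a b := match a, b with
    | .inl u, .inl v => G.Adj u v
    | .inr u, .inr v => G.Adj u v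
    | .inl _, .inr _ => True
    | .inr _, .inl _ => True
  symm := ⟨by
    rintro (u | u) (v | v) h
    · exact SimpleGraph.Adj.symm (G := G) h
    · trivial
    · trivial
    · exact SimpleGraph.Adj.symm (G := G) h⟩
  loopless := ⟨by
    rintro (u | u) h
    · exact G.irrefl h
    · exact G.irrefl h⟩

theorem jn_clique {G : SimpleGraph V} {A B : Finset V} :
    (jn G).IsClique ((A.disjSum B : Finset (V ⊕ V)) : Set (V ⊕ V)) ↔
      G.IsClique (A : Set V) ∧ G.IsClique (B : Set V) := by
  constructor
  · intro h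
    constructor
    · intro u hu v hv huv
      exact h (mem_coe.mpr (inl_mem_disjSum.mpr hu)) (mem_coe.mpr (inl_mem_disjSum.mpr hv))
        (fun e => huv (Sum.inl_injective e))
    · intro u hu v hv huv
      exact h (mem_coe.mpr (inr_mem_disjSum.mpr hu)) (mem_coe.mpr (inr_mem_disjSum.mpr hv))
        (fun e => huv (Sum.inr_injective e))
  · rintro ⟨h1, h2⟩ (u | u) hu (v | v) hv huv
    · exact h1 (inl_mem_disjSum.mp (mem_coe.mp hu)) (inl_mem_disjSum.mp (mem_coe.mp hv))
        (fun e => huv (congrArg _ e))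
    · trivial
    · trivial
    · exact h2 (inr_mem_disjSum.mp (mem_coe.mp hu)) (inr_mem_disjSum.mp (mem_coe.mp hv))
        (fun e => huv (congrArg _ e))

end defs

variable {V : Type} [Fintype V] [LinearOrder V] {G : SimpleGraph V} [LinearOrder (V ⊕ V)]

theorem bd_disj (c : Finset (V ⊕ V) → ZMod 2) (A B : Finset V) :
    bd (ZMod 2) c (A.disjSum B) =
      ∑ v ∈ Aᶜ, c ((insert v A).disjSum B) + ∑ v ∈ Bᶜ, c (A.disjSum (insert v B)) := by
  rw [bd_tr]
  refine (sum_congr (s₂ := (Aᶜ).disjSum (Bᶜ)) ?_ fun _ _ => rfl).trans ?_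
  · ext x
    rcases x with x | x <;> simp
  rw [sum_disjSum]
  congr 1
  · refine sum_congr rfl fun v _ => congrArg c ?_
    ext x
    rcases x with x | x <;> simp
  · refine sum_congr rfl fun v _ => congrArg c ?_
    ext x
    rcases x with x | x <;> simp

/-- the cocycle condition -/
theorem pair_zero {p : Finset V → ZMod 2}
    (hp : ∀ A : Finset V, G.IsClique (A : Set V) → ∑ u ∈ A, p (A.erase u) = 0)
    {w : Finset V → ZMod 2} (hw : ∀ A : Finset V, ¬ G.IsClique (A : Set V) → w A = 0) :
    ∑ A : Finset V, p A * ∑ v ∈ Aᶜ, w (insert v A) = 0 := by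
  rw [sum_flag]
  refine sum_eq_zero fun A _ => ?_
  by_cases h : G.IsClique (A : Set V)
  · rw [hp A h, zero_mul]
  · rw [hw A h, mul_zero]

/-- **Acyclicity of the join gives acyclicity of the factor.** -/
theorem ex2_of_join {i : ℕ} (h : Ex2 (jn G) (2 * i)) : Ex2 G i := by
  classical
  by_contra hm
  unfold Ex2 at hm
  rw [SetLike.le_def] at hm
  push Not at hm
  obtain ⟨z, hz, hzB⟩ := hm
  obtain ⟨φ, hφ1, hφ2⟩ := Submodule.exists_le_ker_of_notMem hzB
  have hzK := mem_KK_tF.mp hz.1
  have hz2 : bd (ZMod 2) z = 0 := hz.2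
  set p : Finset V → ZMod 2 := fun A =>
    if G.IsClique (A : Set V) ∧ A.card = i then φ (Pi.single A 1) else 0 with hp0
  have hp : ∀ A : Finset V, G.IsClique (A : Set V) → ∑ u ∈ A, p (A.erase u) = 0 := by
    intro A hA
    by_cases hcard : A.card = i + 1
    · have h1 : ∑ u ∈ A, p (A.erase u) = φ (bd (ZMod 2) (Pi.single A (1 : ZMod 2))) := by
        rw [bd_single, map_sum]
        refine sum_congr rfl fun u hu => ?_
        rw [hp0]
        simp only
        rw [if_pos]
        refine ⟨hA.subset (by exact_mod_cast erase_subset _ _), ?_⟩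
        rw [card_erase_of_mem hu]
        omega
      rw [h1]
      have h2 := single_mem hA
      rw [hcard] at h2
      exact hφ2 ⟨_, h2, rfl⟩
    · refine sum_eq_zero fun u hu => ?_
      rw [hp0]
      simp only
      rw [if_neg]
      rintro ⟨_, h2⟩
      rw [card_erase_of_mem hu] at h2
      have := card_pos.mpr ⟨u, hu⟩
      omega
  have hpz : ∑ A : Finset V, p A * z A = 1 := by
    have h1 : ∀ T : Finset V, p T * z T = z T * φ (Pi.single T 1) := by
      intro T
      by_cases h2 : z T = 0
      · rw [h2, zero_mul, mul_zero]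
      · have h3 : G.IsClique (T : Set V) ∧ T.card = i := by
          by_contra h
          refine h2 (hzK T ?_)
          rintro ⟨h1, _, h2⟩
          exact h ⟨h1, h2⟩
        rw [hp0]
        simp only
        rw [if_pos h3, mul_comm]
    rw [sum_congr rfl fun T _ => h1 T]
    have h4 : φ z = ∑ T, z T * φ (Pi.single T 1) := by
      conv_lhs => rw [← Finset.univ_sum_single z]
      rw [map_sum]
      refine sum_congr rfl fun T _ => ?_
      have h5 : (Pi.single T (z T) : Finset V → ZMod 2) = z T • Pi.single T (1 : ZMod 2) := by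
        rw [← Pi.single_smul, smul_eq_mul, mul_one]
      rw [h5, map_smul, smul_eq_mul]
    rw [← h4]
    have h6 : ∀ a : ZMod 2, a ≠ 0 → a = 1 := by decide
    exact h6 _ hφ1
  -- the join cycle
  set zz : Finset (V ⊕ V) → ZMod 2 := fun T => z T.toLeft * z T.toRight with hzz
  have hzd : ∀ A B, zz (A.disjSum B) = z A * z B := by
    intro A B
    rw [hzz]
    simp only
    rw [toLeft_disjSum, toRight_disjSum]
  have hmem : zz ∈ ZZ (jn G) (tF (ZMod 2) (V ⊕ V)) Set.univ ∅ (2 * i) := by
    refine ⟨mem_KK_tF.mpr ?_, ?_⟩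
    · intro T hT
      by_contra hne
      apply hT
      have h1 : z T.toLeft ≠ 0 := left_ne_zero_of_mul hne
      have h2 : z T.toRight ≠ 0 := right_ne_zero_of_mul hne
      have h3 : ∀ T : Finset V, z T ≠ 0 → G.IsClique (T : Set V) ∧ T.card = i := by
        intro T h2
        by_contra h
        refine h2 (hzK T ?_)
        rintro ⟨h1, _, h2⟩
        exact h ⟨h1, h2⟩
      obtain ⟨a1, a2⟩ := h3 _ h1
      obtain ⟨b1, b2⟩ := h3 _ h2
      refine ⟨?_, Set.subset_univ _, ?_⟩
      · rw [← toLeft_disjSum_toRight (u := T)]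
        exact jn_clique.mpr ⟨a1, b1⟩
      · rw [← card_toLeft_add_card_toRight, a2, b2]
        ring
    · show bd (ZMod 2) zz = 0
      funext T
      rw [← toLeft_disjSum_toRight (u := T), bd_disj]
      simp only [hzd]
      rw [← sum_mul, ← mul_sum]
      have h1 := congrFun hz2 T.toLeft
      have h2 := congrFun hz2 T.toRight
      rw [bd_tr] at h1 h2
      rw [h1, h2]
      simp
  obtain ⟨w, hw, hwz⟩ := h hmem
  have hwK := mem_KK_tF.mp hw
  have hw1 : ∀ A B : Finset V, ¬ G.IsClique (A : Set V) → w (A.disjSum B) = 0 := by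
    intro A B hA
    refine hwK _ ?_
    rintro ⟨h1, _, _⟩
    exact hA (jn_clique.mp h1).1
  have hw2 : ∀ A B : Finset V, ¬ G.IsClique (B : Set V) → w (A.disjSum B) = 0 := by
    intro A B hB
    refine hwK _ ?_
    rintro ⟨h1, _, _⟩
    exact hB (jn_clique.mp h1).2
  have e1 : ∑ A : Finset V, ∑ B : Finset V, p A * p B * bd (ZMod 2) w (A.disjSum B) = 1 := by
    have h1 : ∀ A B : Finset V, p A * p B * bd (ZMod 2) w (A.disjSum B) = (p A * z A) * (p B * z B) := by
      intro A B
      rw [hwz, hzd]; ring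
    simp only [h1]
    rw [← sum_mul_sum, hpz, one_mul]
  have e2 : ∑ A : Finset V, ∑ B : Finset V, p A * p B * bd (ZMod 2) w (A.disjSum B) = 0 := by
    simp only [bd_disj, mul_add, sum_add_distrib]
    have h1 : ∑ A : Finset V, ∑ B : Finset V, p A * p B * ∑ v ∈ Aᶜ, w ((insert v A).disjSum B) = 0 := by
      rw [sum_comm]
      refine sum_eq_zero fun B _ => ?_
      have h2 : ∀ A : Finset V, p A * p B * ∑ v ∈ Aᶜ, w ((insert v A).disjSum B) =
          p B * (p A * ∑ v ∈ Aᶜ, w ((insert v A).disjSum B)) := fun A => by ring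
      simp only [h2]
      rw [← mul_sum, pair_zero hp (w := fun A => w (A.disjSum B)) (fun A hA => hw1 A B hA),
        mul_zero]
    have h3 : ∑ A : Finset V, ∑ B : Finset V, p A * p B * ∑ v ∈ Bᶜ, w (A.disjSum (insert v B)) = 0 := by
      refine sum_eq_zero fun A _ => ?_
      have h2 : ∀ B : Finset V, p A * p B * ∑ v ∈ Bᶜ, w (A.disjSum (insert v B)) =
          p A * (p B * ∑ v ∈ Bᶜ, w (A.disjSum (insert v B))) := fun B => by ring
      simp only [h2]
      rw [← mul_sum, pair_zero hp (w := fun B => w (A.disjSum B)) (fun B hB => hw2 A B hB),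
        mul_zero]
    rw [h1, h3, add_zero]
  rw [e2] at e1
  exact zero_ne_one e1

end Pool.Agent.H87.Act
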