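import Pool.Graph.R_seed8.W907.SG.Defs
import Pool.Graph.R_seed8.W326.DU.Defs

/-!
# Exactness of the Salvetti complex
-/

set_option autoImplicit false
set_option linter.unusedSectionVars false

namespace Pool.Agent.H87.Act

open Finset Pool.Agent.W907.SG Pool.Agent.W326.DU

variable {V M : Type} [Fintype V] [LinearOrder V] [AddCommGroup M] {G : SimpleGraph V} {R : V → M →+ M}

/-- the twisted boundary -/
def dt (R : V → M →+ M) (x : Finset V → M) (T : Finset V) : M := ∑ v ∈ Tᶜ, sg v T • R v (x (insert v T))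

/-- chains -/
def Ch (G : SimpleGraph V) (S : Finset V) (k : ℕ) (x : Finset V → M) : Prop :=
  ∀ T : Finset V, ¬ (G.IsClique (T : Set V) ∧ T ⊆ S ∧ T.card = k) → x T = 0

theorem dt_sub (x y : Finset V → M) : dt R (x - y) = dt R x - dt R y := by
  funext T
  simp [dt, smul_sub]

theorem dt_add (x y : Finset V → M) : dt R (x + y) = dt R x + dt R y := by
  funext T
  simp [dt, smul_add, sum_add_distrib]

theorem dt_neg (x : Finset V → M) : dt R (-x) = - dt R x := by
  funext T
  simp [dt]

theorem compl_insert' (v : V) (T : Finset V) : (insert v T)ᶜ = Tᶜ.erase v := by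
  ext u; simp

theorem dt_dt (hR : Reg G.Adj R) {x : Finset V → M} (hx : ∀ T : Finset V, ¬ G.IsClique (T : Set V) → x T = 0) :
    dt R (dt R x) = 0 := by
  funext T
  rw [dt]
  have h1 : ∀ v ∈ Tᶜ, sg v T • R v (dt R x (insert v T))
      = ∑ u ∈ Tᶜ.erase v, (sg v T * sg u (insert v T)) • R v (R u (x (insert u (insert v T)))) := by
    intro v hv
    rw [dt, map_sum, Finset.smul_sum, compl_insert']
    exact Finset.sum_congr rfl fun u _ => by rw [map_zsmul, smul_smul]
  rw [Finset.sum_congr rfl h1]
  rw [Finset.sum_sigma']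
  refine Finset.sum_involution (fun (x : Σ _ : V, V) _ => ⟨x.2, x.1⟩) ?_ ?_ ?_ ?_
  · rintro ⟨v, u⟩ h
    simp only [Finset.mem_sigma, Finset.mem_compl, Finset.mem_erase] at h
    obtain ⟨hv, huv, hu⟩ := h
    simp only
    rw [Finset.insert_comm v u T]
    by_cases hc : G.IsClique ((insert u (insert v T) : Finset V) : Set V)
    · have hadj : G.Adj v u := hc (by simp) (by simp) (fun e => huv e.symm)
      rw [hR.comm v u hadj, ← add_smul]
      have := sg_swap u v T huv hu hv
      have h0 : sg v T * sg u (insert v T) + sg u T * sg v (insert u T) = 0 := by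
        rw [mul_comm (sg v T), this]; ring
      rw [h0, zero_smul]
    · rw [hx _ hc]
      simp
  · rintro ⟨v, u⟩ h _ h3
    simp only [Finset.mem_sigma, Finset.mem_compl, Finset.mem_erase] at h
    simp only [Sigma.mk.injEq, heq_eq_eq] at h3
    exact h.2.1 h3.1
  · rintro ⟨v, u⟩ h
    simp only [Finset.mem_sigma, Finset.mem_compl, Finset.mem_erase] at h ⊢
    exact ⟨h.2.2, fun e => h.2.1 e.symm, h.1⟩
  · rintro ⟨v, u⟩ _
    rfl

theorem Ch.clique {S : Finset V} {k : ℕ} {x : Finset V → M} (h : Ch G S k x) (T : Finset V)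
    (hT : ¬ G.IsClique (T : Set V)) : x T = 0 := h T fun h' => hT h'.1

theorem Ch.dt {S : Finset V} {k : ℕ} {x : Finset V → M} (h : Ch G S (k + 1) x) : Ch G S k (dt R x) := by
  intro T hT
  refine sum_eq_zero fun v hv => ?_
  rw [h, map_zero, smul_zero]
  rintro ⟨h1, h2, h3⟩
  rw [mem_compl] at hv
  refine hT ⟨h1.subset (by simp), fun w hw => h2 (mem_insert_of_mem hw), ?_⟩
  rw [card_insert_of_notMem hv] at h3
  omega

theorem Ch.sub {S : Finset V} {k : ℕ} {x y : Finset V → M} (h : Ch G S k x) (h' : Ch G S k y) :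
    Ch G S k (x - y) := fun T hT => by rw [Pi.sub_apply, h T hT, h' T hT, sub_zero]

theorem Ch.add {S : Finset V} {k : ℕ} {x y : Finset V → M} (h : Ch G S k x) (h' : Ch G S k y) :
    Ch G S k (x + y) := fun T hT => by rw [Pi.add_apply, h T hT, h' T hT, add_zero]

theorem Ch.mono {S S' : Finset V} (hS : S ⊆ S') {k : ℕ} {x : Finset V → M} (h : Ch G S k x) : Ch G S' k x :=
  fun T hT => h T fun h' => hT ⟨h'.1, h'.2.1.trans hS, h'.2.2⟩

/-- the part of the chain which contains `v` -/
def qq (v : V) (x : Finset V → M) (T : Finset V) : M := if v ∈ T then 0 else sg v T • x (insert v T)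

theorem dt_qq {v : V} (x : Finset V → M) {T : Finset V} (hv : v ∉ T) :
    dt R (qq v x) T = -(sg v T • dt R x (insert v T)) := by
  rw [dt, dt, compl_insert', ← add_sum_erase _ _ (mem_compl.mpr hv)]
  have h0 : qq v x (insert v T) = 0 := if_pos (mem_insert_self _ _)
  rw [h0, map_zero, smul_zero, zero_add, smul_sum, ← sum_neg_distrib]
  refine sum_congr rfl fun u hu => ?_
  rw [mem_erase, mem_compl] at hu
  have h1 : qq v x (insert u T) = sg v (insert u T) • x (insert v (insert u T)) := by
    rw [qq, if_neg]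
    rw [mem_insert, not_or]
    exact ⟨fun e => hu.1 e.symm, hv⟩
  rw [h1, map_zsmul, smul_smul, smul_smul, ← neg_smul, insert_comm]
  congr 1
  have := sg_swap u v T hu.1 hu.2 hv
  rw [mul_comm (sg v T), this]
  ring

theorem dt_qq' {v : V} (x : Finset V → M) {T : Finset V} (hv : v ∈ T) : dt R (qq v x) T = 0 := by
  refine sum_eq_zero fun u _ => ?_
  have h0 : qq v x (insert u T) = 0 := if_pos (mem_insert_of_mem hv)
  rw [h0, map_zero, smul_zero]

/-- the link -/
noncomputable def lkk (G : SimpleGraph V) (S : Finset V) (v : V) : Finset V :=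
  open Classical in (S.erase v).filter (fun w => G.Adj w v)

theorem mem_lkk {S : Finset V} {v w : V} : w ∈ lkk G S v ↔ w ∈ S.erase v ∧ G.Adj w v := by
  simp [lkk]

theorem notMem_lkk {S : Finset V} {v : V} : v ∉ lkk G S v := by
  rw [mem_lkk]
  rintro ⟨_, h⟩
  exact h.ne rfl

theorem qq_ch {S : Finset V} {v : V} {k : ℕ} {x : Finset V → M} (hx : Ch G S (k + 1) x) :
    Ch G (lkk G S v) k (qq v x) := by
  intro T hT
  by_cases hv : v ∈ T
  · exact if_pos hv
  · rw [qq, if_neg hv, hx, smul_zero]
    rintro ⟨h1, h2, h3⟩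
    refine hT ⟨h1.subset (by simp), fun w hw => ?_, ?_⟩
    · have hwv : w ≠ v := by
        rintro rfl
        exact hv hw
      rw [mem_lkk, mem_erase]
      exact ⟨⟨hwv, h2 (mem_insert_of_mem hw)⟩, h1 (by simp [hw]) (by simp) hwv⟩
    · rw [card_insert_of_notMem hv] at h3
      omega

/-- elements of the sum of the images -/
theorem mem_Im_sum {S : Finset V} {x : M} (hx : x ∈ Im R (S : Set V)) : ∃ c : V → M, x = ∑ w ∈ S, R w (c w) := by
  have hle : Im R (S : Set V) ≤
      { carrier := {x | ∃ c : V → M, x = ∑ w ∈ S, R w (c w)}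
        add_mem' := by
          rintro _ _ ⟨c, rfl⟩ ⟨d, rfl⟩
          exact ⟨c + d, by simp [sum_add_distrib]⟩
        zero_mem' := ⟨0, by simp⟩
        neg_mem' := by
          rintro _ ⟨c, rfl⟩
          exact ⟨-c, by simp⟩ : AddSubgroup M } := by
    refine iSup_le fun v => iSup_le fun hv => ?_
    rintro _ ⟨z, rfl⟩
    refine ⟨Pi.single v z, ?_⟩
    rw [sum_eq_single v]
    · rw [Pi.single_eq_same]
    · intro w _ hw
      rw [Pi.single_eq_of_ne hw, map_zero]
    · intro h
      exact absurd (mem_coe.mp hv) h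
  exact hle hx

theorem sum_mem_Im {S : Finset V} (c : V → M) : ∑ w ∈ S, R w (c w) ∈ Im R (S : Set V) := by
  refine sum_mem fun w hw => ?_
  exact (le_iSup_of_le w (le_iSup_of_le (mem_coe.mpr hw) le_rfl) : (R w).range ≤ Im R (S : Set V)) ⟨_, rfl⟩

/-- a chain in degree one with given boundary -/
theorem exists_deg_one {S : Finset V} (c : V → M) : ∃ y : Finset V → M, Ch G S 1 y ∧
    dt R y ∅ = ∑ w ∈ S, R w (c w) := by
  refine ⟨fun T => ∑ w ∈ S, if T = {w} then sg w ∅ • c w else 0, ?_, ?_⟩
  · intro T hT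
    refine sum_eq_zero fun w hw => if_neg ?_
    rintro rfl
    apply hT
    refine ⟨by simp, by simpa using hw, by simp⟩
  · rw [dt]
    have h1 : ∀ v ∈ (∅ : Finset V)ᶜ, sg v ∅ • R v (∑ w ∈ S, if insert v (∅ : Finset V) = {w} then sg w ∅ • c w else 0) =
        if v ∈ S then R v (c v) else 0 := by
      intro v _
      have h2 : ∑ w ∈ S, (if insert v (∅ : Finset V) = {w} then sg w ∅ • c w else 0) =
          if v ∈ S then sg v ∅ • c v else 0 := by
        rw [← sum_ite_eq S v (fun w => sg w ∅ • c w)]
        refine sum_congr rfl fun w _ => ?_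
        have h3 : insert v (∅ : Finset V) = {w} ↔ v = w := by simp
        simp only [h3]
      rw [h2]
      split_ifs
      · rw [map_zsmul, smul_smul, sg_mul_self, one_smul]
      · simp
    rw [sum_congr rfl h1, ← sum_filter]
    refine sum_congr ?_ fun _ _ => rfl
    ext w
    simp

/-- **Exactness.** -/
theorem kos_exact (hR : Reg G.Adj R) : ∀ (S : Finset V) (k : ℕ) (x : Finset V → M), Ch G S (k + 1) x →
    dt R x = 0 → ∃ y, Ch G S (k + 2) y ∧ dt R y = x := by
  intro S
  induction S using Finset.strongInduction with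
  | H S ih =>
  intro k x hx hdx
  rcases S.eq_empty_or_nonempty with rfl | ⟨v, hvS⟩
  · refine ⟨0, fun _ _ => rfl, ?_⟩
    have h0 : x = 0 := by
      funext T
      refine hx T ?_
      rintro ⟨_, h2, h3⟩
      rw [subset_empty.mp h2, card_empty] at h3
      omega
    rw [h0]
    funext T
    simp [dt]
  have hlk : lkk G S v ⊂ S := by
    refine ⟨fun w hw => mem_of_mem_erase (mem_lkk.mp hw).1, fun h => ?_⟩
    exact notMem_lkk (h hvS)
  have hdq : ∀ T, dt R (qq v x) T = 0 := by
    intro T
    by_cases hv : v ∈ T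
    · exact dt_qq' x hv
    · rw [dt_qq x hv, hdx]
      simp
  -- the lift of the quotient
  have hstep : ∃ y0, Ch G (lkk G S v) (k + 1) y0 ∧ dt R y0 = qq v x := by
    cases k with
    | succ k => exact ih _ hlk k _ (qq_ch hx) (funext hdq)
    | zero =>
      have h1 : R v (x {v}) ∈ Im R ((S.erase v : Finset V) : Set V) := by
        have h2 : dt R x ∅ = 0 := by rw [hdx]; rfl
        have h3 : ∑ u ∈ S, sg u ∅ • R u (x {u}) = 0 := by
          rw [← h2, dt]
          refine sum_subset_zero_on_sdiff (fun u _ => by simp) ?_ ?_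
          · intro u hu
            rw [mem_sdiff] at hu
            have : x (insert u ∅) = 0 := by
              refine hx _ ?_
              rintro ⟨_, h4, _⟩
              exact hu.2 (h4 (mem_insert_self _ _))
            rw [this, map_zero, smul_zero]
          · intro u _
            rfl
        rw [← add_sum_erase _ _ hvS] at h3
        have h4 : R v (x {v}) = ∑ u ∈ S.erase v, R u (-(sg v ∅ * sg u ∅) • x {u}) := by
          have h5 : sg v ∅ • (sg v ∅ • R v (x {v}) + ∑ u ∈ S.erase v, sg u ∅ • R u (x {u})) = 0 := by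
            rw [h3, smul_zero]
          rw [smul_add, smul_smul, sg_mul_self, one_smul, smul_sum] at h5
          rw [eq_neg_of_add_eq_zero_left h5, ← sum_neg_distrib]
          refine sum_congr rfl fun u _ => ?_
          rw [map_zsmul, smul_smul, neg_smul]
        rw [h4]
        exact sum_mem_Im (fun u => -(sg v ∅ * sg u ∅) • x {u})
      have h2 := hR.star _ v (by simp) _ h1
      have h3 : {w | w ∈ ((S.erase v : Finset V) : Set V) ∧ G.Adj w v} = ((lkk G S v : Finset V) : Set V) := by
        ext w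
        rw [mem_coe, mem_lkk]
        rfl
      rw [h3] at h2
      obtain ⟨c, hc⟩ := mem_Im_sum h2
      obtain ⟨y0, hy0, hy0'⟩ := exists_deg_one (G := G) (R := R) (S := lkk G S v) (fun w => sg v ∅ • c w)
      refine ⟨y0, hy0, ?_⟩
      funext T
      by_cases hT : T = ∅
      · subst hT
        rw [hy0', qq, if_neg (notMem_empty v)]
        have : x (insert v ∅) = ∑ w ∈ lkk G S v, R w (c w) := hc
        rw [this, smul_sum]
        refine sum_congr rfl fun w _ => ?_
        rw [map_zsmul]
      · have hcard : T.card ≠ 0 := fun h => hT (card_eq_zero.mp h)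
        rw [hy0.dt T (fun h => hcard h.2.2), qq_ch hx T (fun h => hcard h.2.2)]
  obtain ⟨y0, hy0, hy0'⟩ := hstep
  set yt : Finset V → M := fun T => if v ∈ T then -(sg v (T.erase v) • y0 (T.erase v)) else 0 with hyt
  have hytc : Ch G S (k + 2) yt := by
    intro T hT
    rw [hyt]
    simp only
    split_ifs with hv
    · rw [hy0, smul_zero, neg_zero]
      rintro ⟨h1, h2, h3⟩
      apply hT
      have hTe : T = insert v (T.erase v) := (insert_erase hv).symm
      refine ⟨?_, ?_, ?_⟩
      · rw [hTe, coe_insert]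
        refine SimpleGraph.IsClique.insert h1 ?_
        intro w hw _
        exact (mem_lkk.mp (h2 (mem_coe.mp hw))).2.symm
      · rw [hTe]
        intro w hw
        rw [mem_insert] at hw
        rcases hw with rfl | hw
        · exact hvS
        · exact mem_of_mem_erase (mem_lkk.mp (h2 hw)).1
      · rw [card_erase_of_mem hv] at h3
        omega
    · rfl
  have hqy : qq v yt = -y0 := by
    funext T
    by_cases hv : v ∈ T
    · rw [qq, if_pos hv, Pi.neg_apply, hy0 T (fun h => notMem_lkk (h.2.1 hv)), neg_zero]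
    · rw [qq, if_neg hv, hyt]
      simp only
      rw [if_pos (mem_insert_self _ _), erase_insert hv, smul_neg, smul_smul, sg_mul_self, one_smul]
      rfl
  have hq0 : ∀ T, v ∉ T → (x - dt R yt) (insert v T) = 0 := by
    intro T hv
    have h1 : dt R (qq v yt) T = -(sg v T • dt R yt (insert v T)) := dt_qq yt hv
    rw [hqy, dt_neg, hy0', Pi.neg_apply, qq, if_neg hv] at h1
    have h2 : sg v T • x (insert v T) = sg v T • dt R yt (insert v T) := neg_injective h1
    have h3 : sg v T • (x - dt R yt) (insert v T) = 0 := by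
      rw [Pi.sub_apply, smul_sub, h2, sub_self]
    have h4 : sg v T • sg v T • (x - dt R yt) (insert v T) = 0 := by rw [h3, smul_zero]
    rwa [smul_smul, sg_mul_self, one_smul] at h4
  have hx' : Ch G (S.erase v) (k + 1) (x - dt R yt) := by
    intro T hT
    by_cases hv : v ∈ T
    · have := hq0 (T.erase v) (notMem_erase v T)
      rwa [insert_erase hv] at this
    · refine (hx.sub hytc.dt) T ?_
      rintro ⟨h1, h2, h3⟩
      exact hT ⟨h1, subset_erase.mpr ⟨h2, hv⟩, h3⟩
  obtain ⟨y1, hy1, hy1'⟩ := ih _ (erase_ssubset hvS) k _ hx' (by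
    rw [dt_sub, hdx, dt_dt hR hytc.clique, sub_zero])
  refine ⟨yt + y1, hytc.add (hy1.mono (erase_subset v S)), ?_⟩
  rw [dt_add, hy1']
  abel

end Pool.Agent.H87.Act
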