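import Pool.Agent.H87.Act.Inj
import Pool.Agent.H87.Oct.Coh

/-!
# The Salvetti complex and the simplicial chain complex
-/

set_option autoImplicit false
set_option linter.unusedSectionVars false

namespace Pool.Agent.H87.Act

open Finset Pool.Agent.W907.SG Pool.Agent.W326.DU Pool.Agent.Q121.HC Pool.Agent.W649.ZL TH57.Thr.Ati
open Pool.Agent.H87.Oct
open scoped Matrix

variable {V : Type} [Fintype V] [LinearOrder V] (G : SimpleGraph V)

open Classical in
/-- the incidence numbers -/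
noncomputable def mz (T' T : Finset V) : ℤ := ∑ v ∈ Tᶜ, if insert v T = T' then sg v T else 0

/-- the simplicial boundary -/
noncomputable def MC (i : ℕ) : Matrix (Fin (nq G (i + 1))) (Fin (nq G i)) ℂ :=
  fun κ l => (mz (eq G (i + 1) κ).1 (eq G i l).1 : ℂ)

/-- the simplicial boundary over the group ring -/
noncomputable def MM (i : ℕ) : Matrix (Fin (nq G (i + 1))) (Fin (nq G i)) (MonoidAlgebra ℂ (RAAG G.Adj)) :=
  (MC G i).map (algebraMap ℂ _)

/-- the diagonal matrix of the products -/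
noncomputable def PM (i : ℕ) : Matrix (Fin (nq G i)) (Fin (nq G i)) (MonoidAlgebra ℂ (RAAG G.Adj)) :=
  Matrix.diagonal fun l => pP G (eq G i l).1

variable {G}

theorem toC_dm (T' T : Finset V) :
    MonoidAlgebra.mapRingHom (RAAG G.Adj) (Int.castRingHom ℂ) (dm G T' T) =
      ∑ v ∈ Tᶜ, open Classical in if insert v T = T' then
        sg v T • (MonoidAlgebra.of ℂ (RAAG G.Adj) (gen G.Adj v) - 1) else 0 := by
  classical
  rw [dm, map_sum]
  refine sum_congr rfl fun v _ => ?_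
  split_ifs with h
  · rw [map_zsmul, map_sub, map_one]
    congr 2
    rw [MonoidAlgebra.of_apply, MonoidAlgebra.of_apply, MonoidAlgebra.mapRingHom_single, map_one]
  · rw [map_zero]

theorem toC_mul_PM (i : ℕ) : toC (ds G i) * PM G i = PM G (i + 1) * MM G i := by
  classical
  ext1 κ l
  rw [PM, PM, Matrix.mul_diagonal, Matrix.diagonal_mul]
  have h1 : toC (ds G i) κ l = MonoidAlgebra.mapRingHom (RAAG G.Adj) (Int.castRingHom ℂ)
    (dm G (eq G (i + 1) κ).1 (eq G i l).1) := rfl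
  rw [h1, toC_dm, sum_mul]
  have h2 : MM G i κ l = algebraMap ℂ (MonoidAlgebra ℂ (RAAG G.Adj))
    ((mz (eq G (i + 1) κ).1 (eq G i l).1 : ℤ) : ℂ) := rfl
  rw [h2, map_intCast, mz, Int.cast_sum, mul_sum]
  refine sum_congr rfl fun v hv => ?_
  split_ifs with h
  · rw [smul_mul_assoc, pP_insert (mem_compl.mp hv), h, zsmul_eq_mul]
    · exact (Int.cast_commute _ _).eq
    · rw [h]
      exact (eq G (i + 1) κ).2.1
  · rw [zero_mul, Int.cast_zero, mul_zero]

theorem sqs_of_EE {K : Type} {A : Type} (F : EE A K) (l : K) : SqS fun g : A => F (g, l) := by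
  have h1 := (memlp_two_iff _).1 F.2
  exact h1.comp_injective (fun a b hab => (Prod.mk.inj hab).1)

theorem Rop_diag {K A : Type} [Group A] [Fintype K] [DecidableEq K] (d : K → MonoidAlgebra ℂ A) (F : EE A K)
    (u : A) (l : K) : Rop (Matrix.diagonal d) F (u, l) = cv (d l) (fun v => F (v, l)) u := by
  rw [Rop_apply, sum_eq_single l]
  · rw [Matrix.diagonal_apply_eq]
  · intro k _ hk
    rw [Matrix.diagonal_apply_ne _ hk, cv_zero]
  · intro h; exact absurd (mem_univ _) h

theorem PM_inj (i : ℕ) : Function.Injective (Rop (PM G i)) := by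
  rw [injective_iff_map_eq_zero]
  intro F hF
  ext ⟨u, l⟩
  have h1 : (fun v => F (v, l)) = 0 := by
    refine pP_inj (eq G i l).1 (sqs_of_EE F l) fun u => ?_
    have h2 : Rop (PM G i) F (u, l) = 0 := by rw [hF]; rfl
    rwa [PM, Rop_diag] at h2
  exact congrFun h1 u

theorem kap_ds (i : ℕ) : kap (toC (ds G i)) = kap (MM G i) := by
  rw [← kap_mul_right (toC (ds G i)) (PM G i) (PM_inj i), toC_mul_PM, kap_mul_left (PM G (i + 1)) (PM_inj (i + 1))]

/-! ### exactness -/

/-- exactness of the simplicial chain complex -/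
def ExF (F : Type) [Field F] (G : SimpleGraph V) (j : ℕ) : Prop :=
  ∀ c : Finset V → F, (∀ T : Finset V, ¬ (G.IsClique (T : Set V) ∧ T.card = j) → c T = 0) → bd F c = 0 →
    ∃ c' : Finset V → F, (∀ T : Finset V, ¬ (G.IsClique (T : Set V) ∧ T.card = j + 1) → c' T = 0) ∧
      bd F c' = c

theorem exR_of_ex2 {j : ℕ} (h : Ex2 G j) : ExF ℝ G j := by
  have h0 := beta_of_ex2 h
  have h1 := beta_real_le 2 G Set.univ j
  have h2 : beta G (tF (ZMod 2) V) Set.univ ∅ j = 0 := h0
  rw [h2, Nat.le_zero] at h1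
  unfold beta at h1
  have h3 : BB G (tF ℝ V) Set.univ ∅ j = ZZ G (tF ℝ V) Set.univ ∅ j :=
    Submodule.eq_of_le_of_finrank_le (BB_le_ZZ _ _ _ _ _) (by omega)
  intro c hc hbd
  have hmem : c ∈ ZZ G (tF ℝ V) Set.univ ∅ j := by
    refine ⟨mem_KK_tF.mpr fun T hT => hc T fun h' => hT ⟨h'.1, Set.subset_univ _, h'.2⟩, hbd⟩
  rw [← h3] at hmem
  obtain ⟨c', hc', rfl⟩ := hmem
  exact ⟨c', fun T hT => mem_KK_tF.mp hc' T fun h' => hT ⟨h'.1, h'.2.2⟩, rfl⟩

theorem exC_of_exR {j : ℕ} (h : ExF ℝ G j) : ExF ℂ G j := by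
  intro c hc hbd
  have hre : ∀ T, (bd ℂ c T).re = bd ℝ (fun T => (c T).re) T := by
    intro T
    rw [bd_apply, bd_apply, Complex.re_sum]
    refine sum_congr rfl fun v _ => ?_
    simp
  have him : ∀ T, (bd ℂ c T).im = bd ℝ (fun T => (c T).im) T := by
    intro T
    rw [bd_apply, bd_apply, Complex.im_sum]
    refine sum_congr rfl fun v _ => ?_
    simp
  obtain ⟨a, ha, ha'⟩ := h (fun T => (c T).re) (fun T hT => by rw [hc T hT]; rfl) (by
    funext T
    rw [← hre, hbd]
    rfl)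
  obtain ⟨b, hb, hb'⟩ := h (fun T => (c T).im) (fun T hT => by rw [hc T hT]; rfl) (by
    funext T
    rw [← him, hbd]
    rfl)
  refine ⟨fun T => (a T : ℂ) + (b T : ℂ) * Complex.I, fun T hT => by simp [ha T hT, hb T hT], ?_⟩
  funext T
  have h1 := congrFun ha' T
  have h2 := congrFun hb' T
  rw [bd_apply] at h1 h2 ⊢
  have h3 : ∀ v ∈ Tᶜ, sg v T • ((a (insert v T) : ℂ) + (b (insert v T) : ℂ) * Complex.I) =
      ((sg v T • a (insert v T) : ℝ) : ℂ) + ((sg v T • b (insert v T) : ℝ) : ℂ) * Complex.I := by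
    intro v _
    simp only [zsmul_eq_mul]
    push_cast
    ring
  rw [sum_congr rfl h3, sum_add_distrib, ← sum_mul, ← Complex.ofReal_sum, ← Complex.ofReal_sum, h1, h2]
  exact Complex.re_add_im _

open Classical in
/-- extension by zero -/
noncomputable def exc {i : ℕ} (x : Fin (nq G i) → ℂ) (T : Finset V) : ℂ :=
  if h : G.IsClique (T : Set V) ∧ T.card = i then x ((eq G i).symm ⟨T, h⟩) else 0

theorem exc_apply {i : ℕ} (x : Fin (nq G i) → ℂ) (l : Fin (nq G i)) : exc x (eq G i l).1 = x l := by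
  rw [exc, dif_pos (eq G i l).2]
  exact congrArg x ((eq G i).symm_apply_apply l)

theorem vecMul_MC {i : ℕ} (x : Fin (nq G (i + 1)) → ℂ) (l : Fin (nq G i)) :
    (x ᵥ* MC G i) l = bd ℂ (exc x) (eq G i l).1 := by
  classical
  rw [Matrix.vecMul, dotProduct, bd_apply]
  simp only [MC, mz, Int.cast_sum, mul_sum]
  rw [sum_comm]
  refine sum_congr rfl fun v _ => ?_
  by_cases h : G.IsClique ((insert v (eq G i l).1 : Finset V) : Set V) ∧ (insert v (eq G i l).1).card = i + 1
  · rw [sum_eq_single ((eq G (i + 1)).symm ⟨_, h⟩)]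
    · rw [Equiv.apply_symm_apply, if_pos rfl, exc, dif_pos h, zsmul_eq_mul, mul_comm]
    · intro κ _ hκ
      rw [if_neg, Int.cast_zero, mul_zero]
      intro h2
      apply hκ
      rw [Equiv.eq_symm_apply]
      exact Subtype.ext h2.symm
    · intro h2
      exact absurd (mem_univ _) h2
  · rw [exc, dif_neg h, smul_zero]
    refine sum_eq_zero fun κ _ => ?_
    rw [if_neg, Int.cast_zero, mul_zero]
    intro h2
    rw [h2] at h
    exact h (eq G (i + 1) κ).2

theorem exc_vecMul {i : ℕ} (x : Fin (nq G (i + 1)) → ℂ) : exc (x ᵥ* MC G i) = bd ℂ (exc x) := by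
  funext T
  by_cases hT : G.IsClique (T : Set V) ∧ T.card = i
  · have := vecMul_MC x ((eq G i).symm ⟨T, hT⟩)
    rw [Equiv.apply_symm_apply] at this
    rw [← this, exc, dif_pos hT]
  · rw [exc, dif_neg hT, bd_apply]
    refine (sum_eq_zero fun v hv => ?_).symm
    rw [exc, dif_neg, smul_zero]
    rintro ⟨h1, h2⟩
    rw [card_insert_of_notMem (mem_compl.mp hv)] at h2
    exact hT ⟨h1.subset (by simp), by omega⟩

theorem exc_inj {i : ℕ} {x y : Fin (nq G i) → ℂ} (h : exc x = exc y) : x = y := by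
  funext l
  rw [← exc_apply x, ← exc_apply y, h]

theorem exc_zero {i : ℕ} : exc (0 : Fin (nq G i) → ℂ) = 0 := by
  funext T
  rw [exc]
  split_ifs <;> rfl

theorem MC_mul (i : ℕ) : MC G (i + 1) * MC G i = 0 := by
  ext1 κ l
  have h1 : (Pi.single κ 1 ᵥ* MC G (i + 1)) ᵥ* MC G i = 0 := by
    apply exc_inj
    rw [exc_vecMul, exc_vecMul, bd_bd, exc_zero]
  rw [Matrix.vecMul_vecMul, Matrix.single_one_vecMul] at h1
  exact congrFun h1 l

theorem exact_MC {i : ℕ} (h : ExF ℂ G (i + 1)) (x : Fin (nq G (i + 1)) → ℂ) (hx : x ᵥ* MC G i = 0) :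
    ∃ y, y ᵥ* MC G (i + 1) = x := by
  obtain ⟨c, hc, hc'⟩ := h (exc x) (fun T hT => dif_neg hT) (by rw [← exc_vecMul, hx, exc_zero])
  refine ⟨fun l => c (eq G (i + 2) l).1, ?_⟩
  apply exc_inj
  rw [exc_vecMul, ← hc']
  congr 1
  funext T
  by_cases hT : G.IsClique (T : Set V) ∧ T.card = i + 2
  · rw [exc, dif_pos hT, Equiv.apply_symm_apply]
  · rw [exc, dif_neg hT, hc T hT]

end Pool.Agent.H87.Act
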