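import Pool.Agent.H87.Act.Join

/-!
# The square of an action
-/

set_option autoImplicit false
set_option linter.unusedSectionVars false

namespace Pool.Agent.H87.Act

open Finset Module Pool.Agent.W907.SG Pool.Agent.R782.Bal Pool.Agent.H87.Oct

/-- the product action -/
@[reducible] def prodAct (Γ X : Type) [Group Γ] [MulAction Γ X] : MulAction (Γ × Γ) (X × X) where
  smul p x := (p.1 • x.1, p.2 • x.2)
  one_smul x := Prod.ext (one_smul Γ x.1) (one_smul Γ x.2)
  mul_smul p q x := Prod.ext (mul_smul p.1 q.1 x.1) (mul_smul p.2 q.2 x.2)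

variable {V : Type} [Fintype V] [LinearOrder V] {G : SimpleGraph V}
  {Γ : Type} [Group Γ] {g : V → Γ} {X : Type} [TopologicalSpace X] [MulAction Γ X]

/-- **Proper actions and acyclicity.** -/
theorem ex2_of_action {n : ℕ} [ContractibleSpace X] (hact : ∀ γ : Γ, Continuous fun x : X => γ • x)
    (hg : ∀ u v, G.Adj u v → Commute (g u) (g v))
    {P : Type} [Group P] (ψ : V → Γ →* P) (hψ : ∀ u v, u ≠ v → ψ v (g u) = 1)
    (hψ' : ∀ v, ∀ k : ℤ, ψ v (g v) ^ k = 1 → k = 0)
    (hp : ∀ K : Set X, IsCompact K → {γ : Γ | ∃ x ∈ K, γ • x ∈ K}.Finite)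
    (ι : X × X → (Fin (2 * n + 1) → ℝ)) (hι : Continuous ι) (hinj : Function.Injective ι)
    {i : ℕ} (hi : n < 2 * i) : Ex2 G i := by
  classical
  let _ : LinearOrder (V ⊕ V) := LinearOrder.lift' (Fintype.equivFin (V ⊕ V)) (Equiv.injective _)
  let _ : MulAction (Γ × Γ) (X × X) := prodAct Γ X
  refine ex2_of_join (ex2_of_obs (d := n) ?_ (2 * i) hi)
  intro k hk
  refine obs_of_action (Γ := Γ × Γ) (X := X × X)
    (g := Sum.elim (fun v => (g v, (1 : Γ))) (fun v => ((1 : Γ), g v))) ?_ ?_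
    (Sum.elim (fun v => (ψ v).comp (MonoidHom.fst Γ Γ)) (fun v => (ψ v).comp (MonoidHom.snd Γ Γ)))
    ?_ ?_ ?_ ι hι hinj (by omega)
  · intro γ
    exact ((hact γ.1).comp continuous_fst).prodMk ((hact γ.2).comp continuous_snd)
  · rintro (u | u) (v | v) h
    · exact Commute.prod (hg u v h) (Commute.one_left _)
    · exact Commute.prod (Commute.one_right _) (Commute.one_left _)
    · exact Commute.prod (Commute.one_left _) (Commute.one_right _)
    · exact Commute.prod (Commute.one_left _) (hg u v h)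
  · rintro (u | u) (v | v) h
    · exact hψ u v fun e => h (congrArg _ e)
    · exact map_one (ψ v)
    · exact map_one (ψ v)
    · exact hψ u v fun e => h (congrArg _ e)
  · rintro (v | v) k hk
    · exact hψ' v k (by simpa using hk)
    · exact hψ' v k (by simpa using hk)
  · intro K hK
    have h1 := hp _ (hK.image continuous_fst)
    have h2 := hp _ (hK.image continuous_snd)
    refine (h1.prod h2).subset ?_
    rintro ⟨a, b⟩ ⟨x, hx, hx2⟩
    exact ⟨⟨x.1, ⟨x, hx, rfl⟩, ⟨_, hx2, rfl⟩⟩, ⟨x.2, ⟨x, hx, rfl⟩, ⟨_, hx2, rfl⟩⟩⟩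

end Pool.Agent.H87.Act
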