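import Pool.Graph.R_pool_sql_team_seeded_b0a926ef.R779.CT.Defs
import Pool.Graph.R_seed8.TH38.ZT.Gen

/-!
# Restriction of a finite free resolution to a subgroup of finite index
-/

set_option autoImplicit false
set_option linter.unusedSectionVars false

namespace Pool.Agent.H87.Act

open Finset Pool.Agent.R779.CT
open Pool.Agent.H919R4.ZS (FinRes augm)
open scoped Matrix

/-- a homomorphism with a finite transversal -/
structure Trv (H Γ : Type) [Group H] [Group Γ] where
  /-- the homomorphism -/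
  φ : H →* Γ
  /-- the number of cosets -/
  m : ℕ
  /-- the transversal -/
  t : Fin m → Γ
  bij : Function.Bijective (fun p : H × Fin m => φ p.1 * t p.2)

theorem exists_trv {H Γ : Type} [Group H] [Group Γ] (φ : H →* Γ) (hφ : Function.Injective φ)
    (hfi : φ.range.FiniteIndex) : ∃ τ : Trv H Γ, τ.φ = φ := by
  classical
  have : Finite (Γ ⧸ φ.range) := Subgroup.finite_quotient_of_finiteIndex
  obtain ⟨m, ⟨e⟩⟩ := Finite.exists_equiv_fin (Γ ⧸ φ.range)
  refine ⟨⟨φ, m, fun j => (Quotient.out (e.symm j))⁻¹, ?_, ?_⟩, rfl⟩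
  · rintro ⟨h, j⟩ ⟨h', j'⟩ heq
    have heq : φ h * (Quotient.out (e.symm j))⁻¹ = φ h' * (Quotient.out (e.symm j'))⁻¹ := heq
    have h1 : (Quotient.out (e.symm j) : Γ)⁻¹ = (φ h)⁻¹ * φ h' * (Quotient.out (e.symm j'))⁻¹ := by
      rw [mul_assoc, ← heq, inv_mul_cancel_left]
    have h2 : (Quotient.out (e.symm j) : Γ)⁻¹⁻¹ = Quotient.out (e.symm j') * ((φ h')⁻¹ * φ h) := by
      rw [h1]; group
    rw [inv_inv] at h2
    have h3 : (QuotientGroup.mk (Quotient.out (e.symm j)) : Γ ⧸ φ.range) =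
        QuotientGroup.mk (Quotient.out (e.symm j')) := by
      rw [h2]
      refine (QuotientGroup.eq.mpr ?_).symm
      rw [inv_mul_cancel_left]
      exact φ.range.mul_mem (φ.range.inv_mem ⟨h', rfl⟩) ⟨h, rfl⟩
    have h4 : e.symm j = e.symm j' := by
      have a1 := Quotient.out_eq (e.symm j)
      have a2 := Quotient.out_eq (e.symm j')
      rw [← a1, ← a2]
      exact h3
    have h5 : j = j' := e.symm.injective h4
    subst h5
    have h6 : φ h = φ h' := mul_right_cancel heq
    rw [hφ h6]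
  · intro g
    have h1 : (QuotientGroup.mk (Quotient.out (QuotientGroup.mk g⁻¹ : Γ ⧸ φ.range)) : Γ ⧸ φ.range) =
        QuotientGroup.mk g⁻¹ := Quotient.out_eq _
    rw [QuotientGroup.eq] at h1
    obtain ⟨h, hh⟩ := h1
    refine ⟨(h⁻¹, e (QuotientGroup.mk g⁻¹)), ?_⟩
    show φ h⁻¹ * (Quotient.out (e.symm (e (QuotientGroup.mk g⁻¹))))⁻¹ = g
    rw [Equiv.symm_apply_apply, map_inv, hh]
    group

namespace Trv

variable {H Γ : Type} [Group H] [Group Γ] (τ : Trv H Γ)

/-- the bijection -/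
noncomputable def e : H × Fin τ.m ≃ Γ := Equiv.ofBijective _ τ.bij

theorem e_apply (h : H) (j : Fin τ.m) : τ.e (h, j) = τ.φ h * τ.t j := rfl

theorem e_mul (h h' : H) (j : Fin τ.m) : τ.e (h * h', j) = τ.φ h * τ.e (h', j) := by
  rw [e_apply, e_apply, map_mul, mul_assoc]

theorem symm_mul (h : H) (g : Γ) : τ.e.symm (τ.φ h * g) = (h * (τ.e.symm g).1, (τ.e.symm g).2) := by
  rw [Equiv.symm_apply_eq, e_mul]
  congr 1
  exact (τ.e.apply_symm_apply g).symm

theorem phi_inj : Function.Injective τ.φ := by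
  intro a b hab
  have h1 := τ.e.symm_apply_apply
  have h2 : (τ.e.symm (τ.φ a * 1)) = (τ.e.symm (τ.φ b * 1)) := by rw [hab]
  rw [symm_mul, symm_mul] at h2
  exact mul_right_cancel (congrArg Prod.fst h2)

theorem blk_inj (j k : Fin τ.m) : Function.Injective (fun h : H => (τ.t j)⁻¹ * τ.φ h * τ.t k) := by
  intro a b hab
  have hab : (τ.t j)⁻¹ * τ.φ a * τ.t k = (τ.t j)⁻¹ * τ.φ b * τ.t k := hab
  exact τ.phi_inj (mul_left_cancel (mul_right_cancel hab))

/-- the blocks of the right multiplication by `a` -/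
noncomputable def blk (a : MonoidAlgebra ℤ Γ) (j k : Fin τ.m) : MonoidAlgebra ℤ H :=
  MonoidAlgebra.ofCoeff (Finsupp.comapDomain (fun h : H => (τ.t j)⁻¹ * τ.φ h * τ.t k) a.coeff
    (τ.blk_inj j k).injOn)

theorem blk_coeff (a : MonoidAlgebra ℤ Γ) (j k : Fin τ.m) (h : H) :
    (τ.blk a j k).coeff h = a.coeff ((τ.t j)⁻¹ * τ.φ h * τ.t k) := rfl

theorem blk_add (a b : MonoidAlgebra ℤ Γ) (j k : Fin τ.m) : τ.blk (a + b) j k = τ.blk a j k + τ.blk b j k := by
  ext h
  rw [blk_coeff, MonoidAlgebra.coeff_add, MonoidAlgebra.coeff_add, Finsupp.add_apply, Finsupp.add_apply,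
    blk_coeff, blk_coeff]

theorem blk_zero (j k : Fin τ.m) : τ.blk 0 j k = 0 := by
  ext h
  rw [blk_coeff]
  simp

theorem blk_single (g : Γ) (c : ℤ) (j k : Fin τ.m) :
    τ.blk (MonoidAlgebra.single g c) j k =
      if (τ.e.symm (τ.t j * g)).2 = k then MonoidAlgebra.single (τ.e.symm (τ.t j * g)).1 c else 0 := by
  classical
  ext h
  rw [blk_coeff, MonoidAlgebra.coeff_single, Finsupp.single_apply]
  have key : g = (τ.t j)⁻¹ * τ.φ h * τ.t k ↔ τ.e.symm (τ.t j * g) = (h, k) := by
    rw [Equiv.symm_apply_eq, e_apply, mul_assoc, eq_inv_mul_iff_mul_eq]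
  by_cases h1 : g = (τ.t j)⁻¹ * τ.φ h * τ.t k
  · rw [if_pos h1]
    have h2 := key.mp h1
    rw [h2]
    simp
  · rw [if_neg h1]
    split_ifs with h2
    · rw [MonoidAlgebra.coeff_single, Finsupp.single_apply, if_neg]
      intro h3
      exact h1 (key.mpr (Prod.ext h3 h2))
    · simp

/-- sums over the blocks -/
theorem blk_sum {N : Type} [AddCommGroup N] [Module ℝ N] (a : MonoidAlgebra ℤ Γ) (j : Fin τ.m)
    (f : H → Fin τ.m → N) :
    ∑ k, (τ.blk a j k).coeff.sum (fun s c => (c : ℝ) • f s k) =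
      a.coeff.sum fun g c => (c : ℝ) • f (τ.e.symm (τ.t j * g)).1 (τ.e.symm (τ.t j * g)).2 := by
  classical
  induction a using MonoidAlgebra.induction_linear with
  | zero => simp [blk_zero]
  | add a b ha hb =>
    have h1 : ∀ (x y : MonoidAlgebra ℤ Γ) (F : Γ → N), (x + y).coeff.sum (fun g c => (c : ℝ) • F g) =
        x.coeff.sum (fun g c => (c : ℝ) • F g) + y.coeff.sum fun g c => (c : ℝ) • F g := by
      intro x y F
      rw [MonoidAlgebra.coeff_add, Finsupp.sum_add_index' (by simp) (by intros; push_cast; rw [add_smul])]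
    have h2 : ∀ (x y : MonoidAlgebra ℤ H) (F : H → N), (x + y).coeff.sum (fun g c => (c : ℝ) • F g) =
        x.coeff.sum (fun g c => (c : ℝ) • F g) + y.coeff.sum fun g c => (c : ℝ) • F g := by
      intro x y F
      rw [MonoidAlgebra.coeff_add, Finsupp.sum_add_index' (by simp) (by intros; push_cast; rw [add_smul])]
    rw [h1, ← ha, ← hb, ← sum_add_distrib]
    refine sum_congr rfl fun k _ => ?_
    rw [blk_add, h2 _ _ fun s => f s k]
  | single g c =>
    rw [MonoidAlgebra.coeff_single, Finsupp.sum_single_index (by simp),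
      sum_eq_single (τ.e.symm (τ.t j * g)).2]
    · rw [blk_single, if_pos rfl, MonoidAlgebra.coeff_single, Finsupp.sum_single_index (by simp)]
    · intro k _ hk
      rw [blk_single, if_neg hk.symm]
      simp
    · intro h; exact absurd (mem_univ _) h

end Trv

end Pool.Agent.H87.Act
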