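import Pool.Agent.H87.Act.Kos
import Pool.Graph.R_pool_sql_team_seeded_2aa45f1a.Q121.HC.Raag
import Pool.Graph.R_seed8.W326.DU.Aug
import Pool.Graph.R_seed8.H919R4.ZS.Defs

/-!
# The Salvetti resolution of a right-angled Artin group
-/

set_option autoImplicit false
set_option linter.unusedSectionVars false

namespace Pool.Agent.H87.Act

open Finset Pool.Agent.W907.SG Pool.Agent.W326.DU Pool.Agent.Q121.HC
open Pool.Agent.H919R4.ZS (FinRes)
open scoped Matrix

variable {V : Type} [Fintype V] [LinearOrder V] (G : SimpleGraph V)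

/-- the cliques with `i` elements -/
abbrev Cq (i : ℕ) : Type := {T : Finset V // G.IsClique (T : Set V) ∧ T.card = i}

noncomputable instance instCq (i : ℕ) : Fintype (Cq G i) := Fintype.ofFinite _

/-- the number of the cliques with `i` elements -/
noncomputable def nq (i : ℕ) : ℕ := Fintype.card (Cq G i)

/-- the numbering of the cliques -/
noncomputable def eq (i : ℕ) : Fin (nq G i) ≃ Cq G i := (Fintype.equivFin (Cq G i)).symm

/-- the group ring -/
abbrev AG : Type := ZG (RAAG G.Adj)

/-- the operators -/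
noncomputable abbrev RA : V → AG G →+ AG G := RfV (gen G.Adj)

open Classical in
/-- the coefficients of the boundary -/
noncomputable def dm (T' T : Finset V) : AG G :=
  ∑ v ∈ Tᶜ, if insert v T = T' then sg v T • (MonoidAlgebra.of ℤ (RAAG G.Adj) (gen G.Adj v) - 1) else 0

/-- the matrices -/
noncomputable def ds (i : ℕ) : Matrix (Fin (nq G (i + 1))) (Fin (nq G i)) (AG G) :=
  fun κ l => dm G (eq G (i + 1) κ).1 (eq G i l).1

open Classical in
/-- extension by zero -/
noncomputable def exf {G : SimpleGraph V} {i : ℕ} (x : Fin (nq G i) → AG G) (T : Finset V) : AG G :=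
  if h : G.IsClique (T : Set V) ∧ T.card = i then x ((eq G i).symm ⟨T, h⟩) else 0

variable {G}

theorem exf_ch {i : ℕ} (x : Fin (nq G i) → AG G) : Ch G univ i (exf x) := by
  intro T hT
  rw [exf, dif_neg]
  rintro ⟨h1, h2⟩
  exact hT ⟨h1, subset_univ _, h2⟩

theorem exf_apply {i : ℕ} (x : Fin (nq G i) → AG G) (l : Fin (nq G i)) : exf x (eq G i l).1 = x l := by
  rw [exf, dif_pos (eq G i l).2]
  exact congrArg x ((eq G i).symm_apply_apply l)

theorem ch_ext {i : ℕ} {x y : Finset V → AG G} (hx : Ch G univ i x) (hy : Ch G univ i y)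
    (h : ∀ l, x (eq G i l).1 = y (eq G i l).1) : x = y := by
  funext T
  by_cases hT : G.IsClique (T : Set V) ∧ T.card = i
  · have := h ((eq G i).symm ⟨T, hT⟩)
    rwa [Equiv.apply_symm_apply] at this
  · rw [hx T fun h' => hT ⟨h'.1, h'.2.2⟩, hy T fun h' => hT ⟨h'.1, h'.2.2⟩]

theorem exf_res {i : ℕ} {y : Finset V → AG G} (hy : Ch G univ i y) :
    exf (fun l => y (eq G i l).1) = y :=
  ch_ext (exf_ch _) hy fun l => exf_apply _ l

theorem vecMul_ds {i : ℕ} (x : Fin (nq G (i + 1)) → AG G) (l : Fin (nq G i)) :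
    (x ᵥ* ds G i) l = dt (RA G) (exf x) (eq G i l).1 := by
  classical
  rw [Matrix.vecMul, dotProduct, dt]
  simp only [ds, dm, mul_sum]
  rw [sum_comm]
  refine sum_congr rfl fun v _ => ?_
  by_cases h : G.IsClique ((insert v (eq G i l).1 : Finset V) : Set V) ∧ (insert v (eq G i l).1).card = i + 1
  · rw [sum_eq_single ((eq G (i + 1)).symm ⟨_, h⟩)]
    · rw [Equiv.apply_symm_apply, if_pos rfl, exf, dif_pos h, RfV_apply, mul_smul_comm]
    · intro κ _ hκ
      rw [if_neg, mul_zero]
      intro h2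
      apply hκ
      rw [Equiv.eq_symm_apply]
      exact Subtype.ext h2.symm
    · intro h2
      exact absurd (mem_univ _) h2
  · rw [exf, dif_neg h, map_zero, smul_zero]
    refine sum_eq_zero fun κ _ => ?_
    rw [if_neg, mul_zero]
    intro h2
    rw [h2] at h
    exact h (eq G (i + 1) κ).2

theorem exf_vecMul {i : ℕ} (x : Fin (nq G (i + 1)) → AG G) : exf (x ᵥ* ds G i) = dt (RA G) (exf x) :=
  ch_ext (exf_ch _) (exf_ch x).dt fun l => by rw [exf_apply, vecMul_ds]

theorem exf_inj {i : ℕ} {x y : Fin (nq G i) → AG G} (h : exf x = exf y) : x = y := by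
  funext l
  rw [← exf_apply x, ← exf_apply y, h]

theorem reg_G : Reg G.Adj (RA G) :=
  raag_reg G.Adj (fun _ _ h => h.symm) (fun _ h => h.ne rfl)

instance uniq_Cq : Unique (Cq G 0) where
  default := ⟨∅, by simp⟩
  uniq := by
    rintro ⟨T, h1, h2⟩
    exact Subtype.ext (card_eq_zero.mp h2)

theorem nq_zero : nq G 0 = 1 := by
  rw [nq, Fintype.card_eq_one_iff]
  exact ⟨default, fun y => Unique.eq_default y⟩

theorem sum_nq_zero {N : Type} [AddCommMonoid N] (f : Fin (nq G 0) → N) :
    ∑ j, f j = f ((eq G 0).symm default) := by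
  rw [← Equiv.sum_comp (eq G 0).symm f, Fintype.sum_unique]

theorem exf_zero (x : Fin (nq G 0) → AG G) : exf x ∅ = x ((eq G 0).symm default) := by
  rw [← exf_apply x, Equiv.apply_symm_apply]
  rfl

theorem augm_mul_sub (a : AG G) (g : RAAG G.Adj) :
    Pool.Agent.H919R4.ZS.augm _ (a * (MonoidAlgebra.of ℤ (RAAG G.Adj) g - 1)) = 0 := by
  rw [map_mul, map_sub, map_one]
  have : Pool.Agent.H919R4.ZS.augm _ (MonoidAlgebra.of ℤ (RAAG G.Adj) g) = 1 := by
    simp [Pool.Agent.H919R4.ZS.augm]
  rw [this, sub_self, mul_zero]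

theorem exact_zero_aux (a : AG G) :
    Pool.Agent.H919R4.ZS.augm _ a = 0 ↔ ∃ y : Finset V → AG G, Ch G univ 1 y ∧ dt (RA G) y ∅ = a := by
  constructor
  · intro h
    have h1 := aug_th (RAAG G.Adj) (Set.range (gen G.Adj)) (closure_gen G.Adj) a h
    have h2 : a ∈ Im (RA G) ((univ : Finset V) : Set V) := by
      rw [mem_Im_iff, coe_univ, Set.image_univ]
      exact h1
    obtain ⟨c, hc⟩ := mem_Im_sum h2
    obtain ⟨y, hy, hy'⟩ := exists_deg_one (G := G) (R := RA G) (S := univ) c
    exact ⟨y, hy, by rw [hy', ← hc]⟩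
  · rintro ⟨y, _, rfl⟩
    rw [dt, map_sum]
    refine sum_eq_zero fun v _ => ?_
    rw [map_zsmul, RfV_apply, augm_mul_sub, smul_zero]

variable (G) in
/-- **The Salvetti resolution.** -/
noncomputable def salv : FinRes (RAAG G.Adj) where
  len := Fintype.card V
  n := nq G
  d := ds G
  aug := fun _ => 1
  n_eq_zero := by
    intro i hi
    rw [nq, Fintype.card_eq_zero_iff]
    refine ⟨fun T => ?_⟩
    have := T.1.card_le_univ
    rw [T.2.2] at this
    omega
  surj := by
    refine ⟨fun _ => 1, ?_⟩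
    rw [sum_nq_zero, map_one, mul_one]
  exact_zero := by
    intro x
    rw [sum_nq_zero, mul_one, exact_zero_aux]
    constructor
    · rintro ⟨y, hy, hy'⟩
      refine ⟨fun l => y (eq G 1 l).1, ?_⟩
      apply exf_inj
      rw [exf_vecMul, exf_res hy]
      refine ch_ext (hy.dt) (exf_ch x) fun l => ?_
      rw [exf_apply]
      have h1 : (eq G 0 l) = default := Unique.eq_default _
      rw [h1]
      have h2 : l = (eq G 0).symm default := by rw [← h1, Equiv.symm_apply_apply]
      rw [h2]
      exact hy'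
    · rintro ⟨y, rfl⟩
      refine ⟨exf y, exf_ch y, ?_⟩
      rw [← exf_vecMul, exf_zero]
  exact_succ := by
    intro i x
    constructor
    · intro h
      obtain ⟨y, hy, hy'⟩ := kos_exact reg_G univ i (exf x) (exf_ch x) (by
        rw [← exf_vecMul, h]
        funext T
        rw [exf]
        split_ifs <;> rfl)
      refine ⟨fun l => y (eq G (i + 2) l).1, ?_⟩
      apply exf_inj
      rw [exf_vecMul, exf_res hy, hy']
    · rintro ⟨y, rfl⟩
      apply exf_inj
      rw [exf_vecMul, exf_vecMul, dt_dt reg_G (exf_ch y).clique]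
      funext T
      rw [exf]
      split_ifs <;> rfl

end Pool.Agent.H87.Act
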